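import Pool.Agent.SR.TwA

/-!
# SRL Chart: the chart `x_0 ≠ 0` of `U`, `n = 1`

`t = x_1 / x_0`, `w = x_0 y_1 / q`; `phi : k[t][w] → K`.  If `g` is bihomogeneous of bidegree `(a, b)` then
`g (x_0, x_1, y_0, y_1) = x_0^a (q / x_0)^b phi (g (1, t, 1 - t w, w))`, since `x_1 = x_0 t`, `y_0 = (q / x_0) (1 - t w)`, `y_1 = (q / x_0) w` (`phi_hom`; both sides are linear in `g`: monomials).
`exists_lift`: induction on `δ`: a monomial `t^j w^l` is `x_0^(N-j+l) x_1^j y_1^l q^(m-l) / (x_0^N q^m)`.  `phi_inj`: if `phi δ = 0` then in `exists_lift` `g = 0`, so `δ = 0`.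
-/

set_option autoImplicit false

namespace Pool.Agent.SRL

open Polynomial Pool.Agent.SR

universe u

variable (k : Type u) [Field k]

/-- `x_0` -/
noncomputable def x0 : K k 1 := em k 1 (MvPolynomial.X (Sum.inl 0))

/-- `x_1` -/
noncomputable def x1 : K k 1 := em k 1 (MvPolynomial.X (Sum.inl 1))

/-- `y_0` -/
noncomputable def y0 : K k 1 := em k 1 (MvPolynomial.X (Sum.inr 0))

/-- `y_1` -/
noncomputable def y1 : K k 1 := em k 1 (MvPolynomial.X (Sum.inr 1))

/-- `q` -/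
noncomputable def qq : K k 1 := em k 1 (q k 1)

/-- the coordinates `t = x_1 / x_0` and `w = x_0 y_1 / q` of the chart -/
noncomputable def phi : (k[X])[X] →+* K k 1 := Polynomial.eval₂RingHom (Polynomial.aeval (R := k) (x1 k / x0 k)).toRingHom (x0 k * y1 k / qq k)

/-- the evaluation at `(1, t, 1 - t w, w)` -/
noncomputable def ev0 : T k 1 →ₐ[k] (k[X])[X] :=
  MvPolynomial.aeval (Sum.elim ![1, Polynomial.C X] ![1 - Polynomial.C X * X, X])

variable {k}

theorem x0_ne : x0 k ≠ 0 := fun h => MvPolynomial.X_ne_zero (R := k) (Sum.inl 0 : V 1) (em_inj k 1 (h.trans (em_zero k 1).symm))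

private theorem qq_ne : qq k ≠ 0 := emq_ne_zero

private theorem qq_eq : qq k = x0 k * y0 k + x1 k * y1 k := by
  have h : q k 1 = MvPolynomial.X (Sum.inl 0) * MvPolynomial.X (Sum.inr 0) + MvPolynomial.X (Sum.inl 1) * MvPolynomial.X (Sum.inr 1) := by
    rw [q, Fin.sum_univ_two]
  rw [qq, h, em_add, em_mul, em_mul]
  rfl

private theorem phi_CC (c : k) : phi k (C (C c)) = em k 1 (MvPolynomial.C c) := by
  rw [phi, Polynomial.coe_eval₂RingHom, Polynomial.eval₂_C]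
  change Polynomial.aeval (R := k) (x1 k / x0 k) (C c) = _
  rw [Polynomial.aeval_C]
  exact IsScalarTower.algebraMap_apply k (T k 1) (K k 1) c

private theorem phi_t : phi k (C X) = x1 k / x0 k := by
  rw [phi, Polynomial.coe_eval₂RingHom, Polynomial.eval₂_C]
  change Polynomial.aeval (R := k) (x1 k / x0 k) X = _
  rw [Polynomial.aeval_X]

private theorem phi_w : phi k X = x0 k * y1 k / qq k := by
  rw [phi, Polynomial.coe_eval₂RingHom, Polynomial.eval₂_X]

private theorem ev0_C (c : k) : ev0 k (MvPolynomial.C c) = C (C c) := by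
  rw [ev0, MvPolynomial.aeval_C]
  rfl

private theorem ev0_x0 : ev0 k (MvPolynomial.X (Sum.inl 0)) = 1 := by
  rw [ev0, MvPolynomial.aeval_X]
  rfl

private theorem ev0_x1 : ev0 k (MvPolynomial.X (Sum.inl 1)) = C X := by
  rw [ev0, MvPolynomial.aeval_X]
  rfl

private theorem ev0_y0 : ev0 k (MvPolynomial.X (Sum.inr 0)) = 1 - C X * X := by
  rw [ev0, MvPolynomial.aeval_X]
  rfl

private theorem ev0_y1 : ev0 k (MvPolynomial.X (Sum.inr 1)) = X := by
  rw [ev0, MvPolynomial.aeval_X]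
  rfl

private theorem ev0_q : ev0 k (q k 1) = 1 := by
  rw [q, Fin.sum_univ_two, map_add, map_mul, map_mul, ev0_x0, ev0_x1, ev0_y0, ev0_y1]
  ring

private theorem s_x0 : em k 1 (MvPolynomial.X (Sum.inl 0)) = x0 k * phi k (ev0 k (MvPolynomial.X (Sum.inl 0))) := by
  rw [ev0_x0, map_one, mul_one]
  rfl

private theorem s_x1 : em k 1 (MvPolynomial.X (Sum.inl 1)) = x0 k * phi k (ev0 k (MvPolynomial.X (Sum.inl 1))) := by
  rw [ev0_x1, phi_t, mul_div_cancel₀ _ x0_ne]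
  rfl

private theorem s_y0 : em k 1 (MvPolynomial.X (Sum.inr 0)) = qq k / x0 k * phi k (ev0 k (MvPolynomial.X (Sum.inr 0))) := by
  have h0 : x0 k ≠ 0 := x0_ne
  have h1 : qq k ≠ 0 := qq_ne
  rw [ev0_y0, map_sub, map_one, map_mul, phi_t, phi_w]
  change y0 k = _
  have h2 : qq k / x0 k * (1 - x1 k / x0 k * (x0 k * y1 k / qq k)) = (qq k - x1 k * y1 k) / x0 k := by
    field_simp
  rw [h2, qq_eq, add_sub_cancel_right, mul_div_cancel_left₀ _ h0]

private theorem s_y1 : em k 1 (MvPolynomial.X (Sum.inr 1)) = qq k / x0 k * phi k (ev0 k (MvPolynomial.X (Sum.inr 1))) := by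
  have h0 : x0 k ≠ 0 := x0_ne
  have h1 : qq k ≠ 0 := qq_ne
  rw [ev0_y1, phi_w]
  change y1 k = _
  field_simp

private theorem wt_eq {a b : ℤ} {m : V 1 →₀ ℕ} (h : Finsupp.weight (wt 1) m = (a, b)) :
    a = ((m (Sum.inl 0) + m (Sum.inl 1) : ℕ) : ℤ) ∧ b = ((m (Sum.inr 0) + m (Sum.inr 1) : ℕ) : ℤ) := by
  rw [Finsupp.weight_apply, Finsupp.sum_fintype m (fun i c => c • wt 1 i) (fun _ => zero_smul _ _), Fintype.sum_sum_type, Fin.sum_univ_two, Fin.sum_univ_two] at h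
  have h1 := congrArg Prod.fst h
  have h2 := congrArg Prod.snd h
  simp [wt] at h1 h2
  exact ⟨by push_cast; exact h1.symm, by push_cast; exact h2.symm⟩

private theorem phi_mon (m : V 1 →₀ ℕ) (c : k) : em k 1 (MvPolynomial.monomial m c) = x0 k ^ (m (Sum.inl 0) + m (Sum.inl 1))
    * (qq k / x0 k) ^ (m (Sum.inr 0) + m (Sum.inr 1)) * phi k (ev0 k (MvPolynomial.monomial m c)) := by
  rw [MvPolynomial.monomial_eq, Finsupp.prod_fintype _ _ (fun _ => pow_zero _), Fintype.prod_sum_type, Fin.prod_univ_two, Fin.prod_univ_two]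
  simp only [em_mul, em_pow, map_mul, map_pow, ev0_C, phi_CC]
  rw [s_x0, s_x1, s_y0, s_y1]
  simp only [mul_pow, pow_add]
  ring

private theorem phi_homz {a b : ℤ} {g : T k 1} (hg : Bi k 1 a b g) : em k 1 g = x0 k ^ a * (qq k / x0 k) ^ b * phi k (ev0 k g) := by
  have h : ∀ m ∈ g.support, em k 1 (MvPolynomial.monomial m (g.coeff m))
      = x0 k ^ a * (qq k / x0 k) ^ b * phi k (ev0 k (MvPolynomial.monomial m (g.coeff m))) := by
    intro m hm
    obtain ⟨h1, h2⟩ := wt_eq (hg (MvPolynomial.mem_support_iff.1 hm))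
    rw [h1, h2, zpow_natCast, zpow_natCast]
    exact phi_mon m _
  have e := MvPolynomial.support_sum_monomial_coeff g
  calc em k 1 g = em k 1 (∑ m ∈ g.support, MvPolynomial.monomial m (g.coeff m)) := by rw [e]
    _ = ∑ m ∈ g.support, em k 1 (MvPolynomial.monomial m (g.coeff m)) := em_sum _ _ _ _
    _ = ∑ m ∈ g.support, x0 k ^ a * (qq k / x0 k) ^ b * phi k (ev0 k (MvPolynomial.monomial m (g.coeff m))) := Finset.sum_congr rfl h
    _ = x0 k ^ a * (qq k / x0 k) ^ b * phi k (ev0 k (∑ m ∈ g.support, MvPolynomial.monomial m (g.coeff m))) := by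
      rw [← Finset.mul_sum, map_sum, map_sum]
    _ = _ := by rw [e]

theorem phi_hom {a b : ℕ} {g : T k 1} (hg : Bi k 1 a b g) : em k 1 g = x0 k ^ a * (qq k / x0 k) ^ b * phi k (ev0 k g) := by
  have h := phi_homz hg
  rw [zpow_natCast, zpow_natCast] at h
  exact h

private theorem phi_homi {m : ℕ} {i : ℤ} {g : T k 1} (hg : Bi k 1 (m + i) m g) : em k 1 g = x0 k ^ i * phi k (ev0 k g) * qq k ^ m := by
  have h0 : x0 k ≠ 0 := x0_ne
  rw [phi_homz hg, zpow_add₀ h0, zpow_natCast, zpow_natCast, div_pow]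
  field_simp

/-- every element of `twist i` is `x_0^i` times a polynomial in `t` and `w` -/
theorem twist_phi {i : ℤ} {z : K k 1} (hz : z ∈ twist k 1 i) : ∃ δ : (k[X])[X], z = x0 k ^ i * phi k δ := by
  obtain ⟨m, g, hg, h⟩ := hz
  refine ⟨ev0 k g, ?_⟩
  rw [phi_homi hg] at h
  exact mul_right_cancel₀ (pow_ne_zero m qq_ne) h

/-- `δ` is `ev0` of a form of bidegree `(m + N, m)` -/
private def PL (k : Type u) [Field k] (δ : (k[X])[X]) (N m : ℕ) : Prop := ∃ g : T k 1, Bi k 1 (m + N) m g ∧ ev0 k g = δ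

private theorem PL_x {δ : (k[X])[X]} {N m : ℕ} (h : PL k δ N m) (N' : ℕ) : PL k δ (N + N') m := by
  obtain ⟨g, hg, e⟩ := h
  refine ⟨g * MvPolynomial.X (Sum.inl 0) ^ N', (hg.mul ((Bi.x 0).pow N')).cast (by push_cast; ring) (by ring), ?_⟩
  rw [map_mul, map_pow, ev0_x0, one_pow, mul_one, e]

private theorem PL_q {δ : (k[X])[X]} {N m : ℕ} (h : PL k δ N m) (m' : ℕ) : PL k δ N (m + m') := by
  obtain ⟨g, hg, e⟩ := h
  refine ⟨g * q k 1 ^ m', (hg.mul (Bi.qpow m')).cast (by push_cast; ring) (by push_cast; ring), ?_⟩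
  rw [map_mul, map_pow, ev0_q, one_pow, mul_one, e]

private theorem PL_add {δ δ' : (k[X])[X]} (h : ∃ N m, PL k δ N m) (h' : ∃ N m, PL k δ' N m) : ∃ N m, PL k (δ + δ') N m := by
  obtain ⟨N, m, h⟩ := h
  obtain ⟨N', m', h'⟩ := h'
  have h1 := PL_q (PL_x h N') m'
  have h2 := PL_q (PL_x h' N) m
  rw [add_comm N' N, add_comm m' m] at h2
  obtain ⟨g, hg, e⟩ := h1
  obtain ⟨g', hg', e'⟩ := h2
  exact ⟨N + N', m + m', g + g', hg.add hg', by rw [map_add, e, e']⟩

private theorem PL_mul {δ δ' : (k[X])[X]} (h : ∃ N m, PL k δ N m) (h' : ∃ N m, PL k δ' N m) : ∃ N m, PL k (δ * δ') N m := by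
  obtain ⟨N, m, g, hg, e⟩ := h
  obtain ⟨N', m', g', hg', e'⟩ := h'
  exact ⟨N + N', m + m', g * g', (hg.mul hg').cast (by push_cast; ring) (by push_cast; ring), by rw [map_mul, e, e']⟩

private theorem PL_c (c : k) : ∃ N m, PL k (C (C c)) N m :=
  ⟨0, 0, MvPolynomial.C c, (Bi.C c).cast (by norm_num) (by norm_num), ev0_C c⟩

private theorem PL_t : ∃ N m, PL k (C X) N m :=
  ⟨1, 0, MvPolynomial.X (Sum.inl 1), (Bi.x 1).cast (by norm_num) (by norm_num), ev0_x1⟩

private theorem PL_w : ∃ N m, PL k X N m :=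
  ⟨0, 1, MvPolynomial.X (Sum.inl 0) * MvPolynomial.X (Sum.inr 1), ((Bi.x 0).mul (Bi.y 1)).cast (by norm_num) (by norm_num),
    by rw [map_mul, ev0_x0, ev0_y1, one_mul]⟩

private theorem PL_C (p : k[X]) : ∃ N m, PL k (C p) N m := by
  induction p using Polynomial.induction_on with
  | C c => exact PL_c c
  | add p q hp hq =>
    rw [C_add]
    exact PL_add hp hq
  | monomial n c h =>
    rw [pow_succ, ← mul_assoc, C_mul]
    exact PL_mul h PL_t

private theorem PL_all (δ : (k[X])[X]) : ∃ N m, PL k δ N m := by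
  induction δ using Polynomial.induction_on with
  | C p => exact PL_C p
  | add p q hp hq => exact PL_add hp hq
  | monomial n c h =>
    rw [pow_succ, ← mul_assoc]
    exact PL_mul h PL_w

theorem exists_lift (δ : (k[X])[X]) : ∃ (N m : ℕ) (g : T k 1), Bi k 1 (m + N) m g ∧ ev0 k g = δ ∧ em k 1 g = x0 k ^ N * qq k ^ m * phi k δ := by
  obtain ⟨N, m, g, hg, e⟩ := PL_all δ
  refine ⟨N, m, g, hg, e, ?_⟩
  rw [phi_homi hg, zpow_natCast, e]
  ring

theorem phi_inj : Function.Injective (phi k) := by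
  rw [injective_iff_map_eq_zero]
  intro δ h
  obtain ⟨N, m, g, hg, e, h1⟩ := exists_lift δ
  rw [h, mul_zero] at h1
  rw [← e, em_inj k 1 (h1.trans (em_zero k 1).symm), map_zero]

theorem phi_twist (δ : (k[X])[X]) : ∃ N : ℕ, ∀ n : ℕ, N ≤ n → x0 k ^ n * phi k δ ∈ twist k 1 n := by
  obtain ⟨N, m, g, hg, e, h1⟩ := exists_lift δ
  refine ⟨N, fun n hn => ?_⟩
  obtain ⟨d, rfl⟩ := Nat.exists_eq_add_of_le hn
  refine ⟨m, MvPolynomial.X (Sum.inl 0) ^ d * g, (((Bi.x 0).pow d).mul hg).cast (by push_cast; ring) (by ring), ?_⟩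
  rw [em_mul, em_pow, h1]
  change x0 k ^ (N + d) * phi k δ * qq k ^ m = x0 k ^ d * (x0 k ^ N * qq k ^ m * phi k δ)
  ring

end Pool.Agent.SRL
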