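import Mathlib

/-!
# SRL Euc: an induction principle for nonzero vectors of polynomials (Euclid's algorithm)

Strong induction on `∑ i, if c i = 0 then 0 else natDegree (c i) + 1`.  If two entries `i ≠ j` are nonzero and `deg (c j) ≤ deg (c i)`, subtract from `c i` a multiple of `c j`
(`Polynomial` division by `c j`: the new entry `c i % c j` is `0` or has smaller degree than `c j`); otherwise exactly one entry is nonzero.
-/

set_option autoImplicit false

namespace Pool.Agent.SRL

open Polynomial

theorem euclid_ind {κ : Type*} [Field κ] {ι : Type*} [Fintype ι] [DecidableEq ι] (Q : (ι → κ[X]) → Prop)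
    (h1 : ∀ (c : ι → κ[X]) (i : ι), c i ≠ 0 → (∀ j, j ≠ i → c j = 0) → Q c)
    (h2 : ∀ (c : ι → κ[X]) (i j : ι) (s : κ[X]), i ≠ j → Q (Function.update c i (c i - s * c j)) → Q c) (c : ι → κ[X]) (hc : c ≠ 0) : Q c := by
  classical
  induction hn : (∑ i, if c i = 0 then 0 else (c i).natDegree + 1) using Nat.strong_induction_on generalizing c with
  | _ n ih =>
  have key : ∀ i j, i ≠ j → c i ≠ 0 → c j ≠ 0 → (c j).natDegree ≤ (c i).natDegree → Q c := by
    intro i j hij hi hj hd
    apply h2 c i j (c i / c j) hij
    have e : c i - c i / c j * c j = c i % c j := by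
      rw [EuclideanDomain.mod_eq_sub_mul_div, mul_comm]
    rw [e]
    have hlt : (if c i % c j = 0 then 0 else (c i % c j).natDegree + 1) < (if c i = 0 then 0 else (c i).natDegree + 1) := by
      rw [if_neg hi]
      split_ifs with h0
      · exact Nat.succ_pos _
      · have h3 := natDegree_lt_natDegree h0 (degree_mod_lt (c i) hj)
        omega
    refine ih _ ?_ (Function.update c i (c i % c j)) ?_ rfl
    · rw [← hn]
      apply Finset.sum_lt_sum
      · intro l _
        by_cases hl : l = i
        · subst hl
          rw [Function.update_self]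
          exact hlt.le
        · rw [Function.update_of_ne hl]
      · refine ⟨i, Finset.mem_univ i, ?_⟩
        rw [Function.update_self]
        exact hlt
    · intro h0
      have h3 := congrFun h0 j
      rw [Function.update_of_ne hij.symm] at h3
      exact hj h3
  by_cases h : ∃ i j, i ≠ j ∧ c i ≠ 0 ∧ c j ≠ 0
  · obtain ⟨i, j, hij, hi, hj⟩ := h
    rcases le_total (c j).natDegree (c i).natDegree with h' | h'
    · exact key i j hij hi hj h'
    · exact key j i hij.symm hj hi h'
  · push Not at h
    obtain ⟨i, hi⟩ := Function.ne_iff.mp hc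
    refine h1 c i hi fun j hj => ?_
    exact h i j hj.symm hi

end Pool.Agent.SRL
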