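import Pool.Agent.SRL.Rho

/-!
# SRL Fam: the image of an idempotent matrix and families of vectors in it
-/

set_option autoImplicit false

namespace Pool.Agent.SRL

open Polynomial Pool.Agent.SR

universe u

variable {k : Type u} [Field k] {N r : ℕ}

/-- the image of the matrix `e` over `O(U)`, twisted by `i` -/
noncomputable def Im (e : Matrix (Fin N) (Fin N) (A k 1)) (i : ℤ) : Submodule (A k 1) (Fin N → K k 1) where
  carrier := {z | (∀ l, z l ∈ twist k 1 i) ∧ (e.map (algebraMap (A k 1) (K k 1))).mulVec z = z}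
  zero_mem' := ⟨fun _ => (twist k 1 i).zero_mem, Matrix.mulVec_zero _⟩
  add_mem' := by
    rintro z w ⟨h1, h2⟩ ⟨h3, h4⟩
    exact ⟨fun l => (twist k 1 i).add_mem (h1 l) (h3 l), by rw [Matrix.mulVec_add, h2, h4]⟩
  smul_mem' := by
    rintro a z ⟨h1, h2⟩
    refine ⟨fun l => (twist k 1 i).smul_mem a (h1 l), ?_⟩
    rw [← algebraMap_smul (K k 1) a z, Matrix.mulVec_smul, h2]

/-- the combinations of the vectors `w i` with coefficients in `twist (a i)` -/
noncomputable def Sp (w : Fin r → Fin N → K k 1) (a : Fin r → ℤ) : Submodule (A k 1) (Fin N → K k 1) where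
  carrier := {z | ∃ c : Fin r → K k 1, (∀ i, c i ∈ twist k 1 (a i)) ∧ z = ∑ i, c i • w i}
  zero_mem' := ⟨0, fun _ => (twist k 1 _).zero_mem, by simp⟩
  add_mem' := by
    rintro z z' ⟨c, h1, rfl⟩ ⟨c', h3, rfl⟩
    refine ⟨c + c', fun i => (twist k 1 _).add_mem (h1 i) (h3 i), ?_⟩
    simp only [Pi.add_apply, add_smul, Finset.sum_add_distrib]
  smul_mem' := by
    rintro s z ⟨c, h1, rfl⟩
    refine ⟨s • c, fun i => (twist k 1 _).smul_mem s (h1 i), ?_⟩
    rw [Finset.smul_sum]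
    exact Finset.sum_congr rfl fun i _ => by rw [Pi.smul_apply, smul_assoc]

/-- the vectors `w i` are linearly independent, `w i` is in the image of `e` twisted by `-a i`, and every vector of the image of `e` is in `Sp w a` outside the curve `x_0 = 0` -/
structure Good (e : Matrix (Fin N) (Fin N) (A k 1)) (w : Fin r → Fin N → K k 1) (a : Fin r → ℤ) : Prop where
  ind : LinearIndependent (K k 1) w
  mem : ∀ i, w i ∈ Im e (-a i)
  cof : ∀ z ∈ Im e 0, ∃ n : ℕ, ∀ l ∈ twist k 1 (-n), (x0 k ^ n * l) • z ∈ Sp w a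

theorem im_smul {e : Matrix (Fin N) (Fin N) (A k 1)} {i j : ℤ} {c : K k 1} {z : Fin N → K k 1} (hc : c ∈ twist k 1 i) (hz : z ∈ Im e j) : c • z ∈ Im e (i + j) := by
  obtain ⟨h1, h2⟩ := hz
  refine ⟨fun l => ?_, ?_⟩
  · rw [Pi.smul_apply, smul_eq_mul]
    exact twist_mul hc (h1 l)
  · rw [Matrix.mulVec_smul, h2]

theorem sp_le {e : Matrix (Fin N) (Fin N) (A k 1)} {w : Fin r → Fin N → K k 1} {a : Fin r → ℤ} (h : Good e w a) : Sp w a ≤ Im e 0 := by
  rintro z ⟨c, hc, rfl⟩
  refine Submodule.sum_mem _ fun i _ => ?_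
  have h1 := im_smul (hc i) (h.mem i)
  rwa [add_neg_cancel] at h1

/-- if `twist (-1) * u` is contained in `twist a` then `u` is in `twist (a + 1)` -/
theorem of_neg {a : ℤ} {u : K k 1} (h : ∀ l ∈ twist k 1 (-1), l * u ∈ twist k 1 a) : u ∈ twist k 1 (a + 1) := by
  have h1 : u = ∑ l : Fin (1 + 1), em k 1 (MvPolynomial.X (Sum.inl l)) * (em k 1 (MvPolynomial.X (Sum.inr l)) / em k 1 (q k 1) * u) := by
    calc u = (∑ l : Fin (1 + 1), em k 1 (MvPolynomial.X (Sum.inl l)) * (em k 1 (MvPolynomial.X (Sum.inr l)) / em k 1 (q k 1))) * u := by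
          rw [sum_xy, one_mul]
      _ = _ := by
          rw [Finset.sum_mul]
          exact Finset.sum_congr rfl fun l _ => mul_assoc _ _ _
  rw [h1]
  refine Submodule.sum_mem _ fun l _ => ?_
  rw [add_comm a 1]
  exact twist_mul (x_mem l) (h _ (y_mem l))

end Pool.Agent.SRL
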