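import Mathlib

/-!
# SRL Gen: a module over `C[X]` is generically free over `C`

`S = (nonZeroDivisors C).map C`; `(FractionRing C)[X]` is the localization of `C[X]` at `S` (`Polynomial.isLocalization`), a principal ideal domain; `LocalizedModule S P` is finite and torsion
free over it, so it is free, with a finite basis; multiply the basis by elements of `S` so that it comes from `P`.
-/

set_option autoImplicit false

namespace Pool.Agent.SRL

open Polynomial

universe u v

private theorem Gen_aux {R : Type u} [CommRing R] [IsDomain R] (S : Submonoid R) (hS : (0 : R) ∉ S) [IsPrincipalIdealRing (Localization S)]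
    (P : Type v) [AddCommGroup P] [Module R P] [Module.Finite R P] [Module.IsTorsionFree R P] :
    ∃ (r : ℕ) (b : Fin r → P), LinearIndependent R b ∧ ∀ p : P, ∃ s ∈ S, s • p ∈ Submodule.span R (Set.range b) := by
  classical
  have hle : S ≤ nonZeroDivisors R := by
    intro s hs
    exact mem_nonZeroDivisors_of_ne_zero fun h => hS (h ▸ hs)
  have : IsDomain (Localization S) := IsLocalization.isDomain_localization hle
  let f := LocalizedModule.mkLinearMap S P
  have : Module.Finite (Localization S) (LocalizedModule S P) := Module.Finite.of_isLocalizedModule S (Rₚ := Localization S) f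
  have : Module.IsTorsionFree (Localization S) (LocalizedModule S P) := inferInstance
  obtain ⟨r, B⟩ := Module.basisOfFiniteTypeTorsionFree' (R := Localization S) (M := LocalizedModule S P)
  have hinj : Function.Injective f := by
    intro x y h
    obtain ⟨c, hc⟩ := (IsLocalizedModule.eq_iff_exists S f).1 h
    have h0 : (c : R) ≠ 0 := fun h => hS (h ▸ c.2)
    exact smul_right_injective P h0 hc
  have hsurj : ∀ i, ∃ x : P × S, x.2 • B i = f x.1 := fun i => IsLocalizedModule.surj S f (B i)
  choose x hx using hsurj
  have hmap : ∀ (c : R) (z : LocalizedModule S P), c • z = (algebraMap R (Localization S) c) • z := fun c z => (algebraMap_smul _ c z).symm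
  have hx' : ∀ i, f (x i).1 = (algebraMap R (Localization S) ((x i).2 : R)) • B i := by
    intro i
    rw [← hx i, ← hmap]
    rfl
  have hai : Function.Injective (algebraMap R (Localization S)) := IsLocalization.injective _ hle
  have hne : ∀ i, ((x i).2 : R) ≠ 0 := fun i h => hS (h ▸ (x i).2.2)
  refine ⟨r, fun i => (x i).1, ?_, ?_⟩
  · rw [Fintype.linearIndependent_iff]
    intro g hg i
    have h1 : ∑ j, (algebraMap R (Localization S) (g j * (x j).2)) • B j = 0 := by
      have h2 := congrArg f hg
      rw [map_sum, map_zero] at h2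
      rw [← h2]
      refine Finset.sum_congr rfl fun j _ => ?_
      rw [map_smul, hx' j, hmap, smul_smul, map_mul]
    have h3 := Fintype.linearIndependent_iff.1 B.linearIndependent _ h1 i
    have h4 : g i * (x i).2 = 0 := hai (h3.trans (map_zero _).symm)
    exact (mul_eq_zero.1 h4).resolve_right (hne i)
  · intro p
    obtain ⟨t, ht⟩ := IsLocalization.exist_integer_multiples_of_finite S (fun i => B.repr (f p) i)
    choose g hg using ht
    refine ⟨(∏ i, ((x i).2 : R)) * t, S.mul_mem (S.prod_mem fun i _ => (x i).2.2) t.2, ?_⟩
    have key : ((∏ i, ((x i).2 : R)) * t) • p = ∑ i, (g i * ∏ j ∈ Finset.univ.erase i, ((x j).2 : R)) • (x i).1 := by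
      apply hinj
      rw [map_smul, map_sum]
      have h5 : f p = ∑ i, B.repr (f p) i • B i := (B.sum_repr (f p)).symm
      rw [h5, Finset.smul_sum]
      refine Finset.sum_congr rfl fun i _ => ?_
      rw [map_smul, hx' i, hmap, hmap, smul_smul, smul_smul, ← map_mul, ← Finset.mul_prod_erase Finset.univ (fun j => ((x j).2 : R)) (Finset.mem_univ i)]
      have h6 : algebraMap R (Localization S) (t : R) * B.repr (f p) i = algebraMap R (Localization S) (g i) := by
        rw [hg i, Algebra.smul_def]
      congr 1
      rw [map_mul, map_mul, map_mul, map_mul, ← h6]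
      ring
    rw [key]
    exact Submodule.sum_mem _ fun i _ => Submodule.smul_mem _ _ (Submodule.subset_span ⟨i, rfl⟩)

theorem generic {C : Type u} [CommRing C] [IsDomain C] (P : Type v) [AddCommGroup P] [Module C[X] P] [Module.Finite C[X] P] [Module.IsTorsionFree C[X] P] :
    ∃ (r : ℕ) (b : Fin r → P), LinearIndependent C[X] b ∧ ∀ p : P, ∃ c : C, c ≠ 0 ∧ Polynomial.C c • p ∈ Submodule.span C[X] (Set.range b) := by
  let S : Submonoid C[X] := (nonZeroDivisors C).map (Polynomial.C : C →+* C[X])
  have hS : (0 : C[X]) ∉ S := by
    rintro ⟨c, hc, h⟩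
    have h1 : Polynomial.C c = 0 := h
    rw [Polynomial.C_eq_zero] at h1
    exact nonZeroDivisors.ne_zero hc h1
  have : IsPrincipalIdealRing (Localization S) := by
    let _ := Polynomial.algebra C (FractionRing C)
    have : IsLocalization S (FractionRing C)[X] := Polynomial.isLocalization (nonZeroDivisors C) (FractionRing C)
    let e : (FractionRing C)[X] ≃ₐ[C[X]] Localization S := IsLocalization.algEquiv S _ _
    exact IsPrincipalIdealRing.of_surjective e.toRingEquiv.toRingHom e.surjective
  obtain ⟨r, b, hb, h⟩ := Gen_aux S hS P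
  refine ⟨r, b, hb, fun p => ?_⟩
  obtain ⟨s, ⟨c, hc, rfl⟩, hs⟩ := h p
  exact ⟨c, nonZeroDivisors.ne_zero hc, hs⟩

end Pool.Agent.SRL
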