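import Pool.Agent.SRL.Sesh
import Pool.Agent.SRL.Fam

/-!
# SRL Init: a good family exists

The entries of `e` are `phi` of the entries of a matrix `e'` over `k[X][X]` (`twist_phi` with `i = 0`), `e'` is idempotent (`phi_inj`).  `P = {ζ | e' ζ = ζ}` (or the range of `e'`) is a direct summand of
`(k[X][X])^N`, so it is finite and projective, so it is free (`seshadri`), with a basis `β : Fin r → P`; the linear forms `β^* i ∘ e'` on `(k[X][X])^N` are given by vectors `u i` with
`∑ l, u i l * β j l = δ_ij`.  `w i = x_0^M • phi (β i)` with `M` large (`phi_twist`), `a i = -M`.  Independence over `K`: apply `phi (u i)`.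
`cof`: `z ∈ Im e 0` is `phi ζ` with `ζ ∈ P`, `ζ = ∑ δ i • β i`, `(x_0^n * l) • z = ∑ (x_0^n * l * phi (δ i) * x_0^(-M)) • w i`, and the coefficient is in `twist (-M)` as soon as `n ≥ M + N'`,
`x_0^m * phi (δ i) ∈ twist m` for `m ≥ N'`.
-/

set_option autoImplicit false

namespace Pool.Agent.SRL

open Polynomial Pool.Agent.SR

universe u

variable {k : Type u} [Field k] {N : ℕ}

private theorem Init_phi (z : A k 1) : ∃ δ : (k[X])[X], phi k δ = algebraMap (A k 1) (K k 1) z := by
  obtain ⟨δ, h⟩ := twist_phi ((mem_A_iff (algebraMap (A k 1) (K k 1) z)).2 ⟨z, rfl⟩)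
  exact ⟨δ, by rw [h, zpow_zero, one_mul]⟩

private theorem Init_mul {e : Matrix (Fin N) (Fin N) (A k 1)} {f : Matrix (Fin N) (Fin N) ((k[X])[X])}
    (hf : ∀ i j, phi k (f i j) = algebraMap (A k 1) (K k 1) (e i j)) (ζ : Fin N → (k[X])[X]) (m : Fin N) :
    (e.map (algebraMap (A k 1) (K k 1))).mulVec (fun l => phi k (ζ l)) m = phi k (f.mulVec ζ m) := by
  simp only [Matrix.mulVec, dotProduct, map_sum, map_mul, Matrix.map_apply, hf]

private theorem Init_bound {ι : Type*} [Fintype ι] (δ : ι → (k[X])[X]) :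
    ∃ M : ℕ, ∀ n : ℕ, M ≤ n → ∀ i, x0 k ^ n * phi k (δ i) ∈ twist k 1 n := by
  choose g hg using fun i => phi_twist (δ i)
  refine ⟨∑ i, g i, fun n hn i => hg i n ((Finset.single_le_sum (fun j _ => Nat.zero_le (g j)) (Finset.mem_univ i)).trans hn)⟩

theorem init (e : Matrix (Fin N) (Fin N) (A k 1)) (he : e * e = e) : ∃ (r : ℕ) (w : Fin r → Fin N → K k 1) (a : Fin r → ℤ), Good e w a := by
  classical
  choose f hf using fun i j => Init_phi (e i j)
  have hff : Matrix.of f * Matrix.of f = Matrix.of f := by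
    ext1 i j
    apply phi_inj
    have h1 := congrArg (fun M => algebraMap (A k 1) (K k 1) (M i j)) he
    simp only [Matrix.mul_apply, map_sum, map_mul, ← hf] at h1
    rw [Matrix.mul_apply, map_sum]
    simp only [map_mul, Matrix.of_apply]
    exact h1
  set F : Matrix (Fin N) (Fin N) ((k[X])[X]) := Matrix.of f with hF
  have hf' : ∀ i j, phi k (F i j) = algebraMap (A k 1) (K k 1) (e i j) := hf
  -- the image
  let L : (Fin N → (k[X])[X]) →ₗ[(k[X])[X]] (Fin N → (k[X])[X]) := F.mulVecLin
  have hLL : ∀ v, L (L v) = L v := by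
    intro v
    change F.mulVec (F.mulVec v) = F.mulVec v
    rw [Matrix.mulVec_mulVec, hff]
  let P : Submodule ((k[X])[X]) (Fin N → (k[X])[X]) := LinearMap.range L
  have hP : ∀ v ∈ P, L v = v := by
    rintro _ ⟨v, rfl⟩
    exact hLL v
  have hproj : Module.Projective ((k[X])[X]) P := by
    refine Module.Projective.of_split P.subtype L.rangeRestrict ?_
    ext1 v
    apply Subtype.ext
    exact hP v.1 v.2
  have hfree : Module.Free ((k[X])[X]) P := seshadri P
  let β := Module.finBasis ((k[X])[X]) P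
  set r := Module.finrank ((k[X])[X]) P with hr
  -- the dual vectors
  let u : Fin r → Fin N → (k[X])[X] := fun i l => β.coord i (L.rangeRestrict (Pi.single l 1))
  have hu : ∀ (i : Fin r) (v : Fin N → (k[X])[X]) (hv : v ∈ P), ∑ l, v l * u i l = β.coord i ⟨v, hv⟩ := by
    intro i v hv
    have e1 : (⟨v, hv⟩ : P) = L.rangeRestrict v := Subtype.ext (hP v hv).symm
    have e2 : v = ∑ l, v l • (Pi.single l (1 : (k[X])[X]) : Fin N → (k[X])[X]) := by
      ext1 m
      simp [Finset.sum_apply, Pi.single_apply]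
    rw [e1]
    conv_rhs => rw [e2]
    rw [map_sum, map_sum]
    refine Finset.sum_congr rfl fun l _ => ?_
    rw [map_smul, map_smul, smul_eq_mul]
  obtain ⟨M, hM⟩ := Init_bound (k := k) (fun x : Fin r × Fin N => (β x.1 : Fin N → (k[X])[X]) x.2)
  have hx0 : x0 k ^ M ≠ 0 := pow_ne_zero _ x0_ne
  refine ⟨r, fun i l => x0 k ^ M * phi k ((β i : Fin N → (k[X])[X]) l), fun _ => -(M : ℤ), ⟨?_, ?_, ?_⟩⟩
  · rw [Fintype.linearIndependent_iff]
    intro c hc i
    have h1 : ∑ l, (∑ j, c j • fun l => x0 k ^ M * phi k ((β j : Fin N → (k[X])[X]) l)) l * phi k (u i l) = c i * x0 k ^ M := by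
      have h2 : ∀ l, (∑ j, c j • fun l => x0 k ^ M * phi k ((β j : Fin N → (k[X])[X]) l)) l * phi k (u i l) =
          ∑ j, c j * x0 k ^ M * phi k ((β j : Fin N → (k[X])[X]) l * u i l) := by
        intro l
        rw [Finset.sum_apply, Finset.sum_mul]
        refine Finset.sum_congr rfl fun j _ => ?_
        rw [Pi.smul_apply, smul_eq_mul, map_mul]
        ring
      rw [Finset.sum_congr rfl fun l _ => h2 l, Finset.sum_comm]
      have h3 : ∀ j, ∑ l, c j * x0 k ^ M * phi k ((β j : Fin N → (k[X])[X]) l * u i l) = if j = i then c j * x0 k ^ M else 0 := by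
        intro j
        rw [← Finset.mul_sum, ← map_sum, hu i _ (β j).2]
        have h4 : β.coord i ⟨(β j : Fin N → (k[X])[X]), (β j).2⟩ = if j = i then 1 else 0 := by
          rw [show (⟨(β j : Fin N → (k[X])[X]), (β j).2⟩ : P) = β j from rfl, Module.Basis.coord_apply, Module.Basis.repr_self, Finsupp.single_apply]
        rw [h4]
        split_ifs
        · rw [map_one, mul_one]
        · rw [map_zero, mul_zero]
      rw [Finset.sum_congr rfl fun j _ => h3 j, Finset.sum_ite_eq' Finset.univ i, if_pos (Finset.mem_univ i)]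
    rw [hc] at h1
    simp only [Pi.zero_apply, zero_mul, Finset.sum_const_zero] at h1
    exact (mul_eq_zero.1 h1.symm).resolve_right hx0
  · intro i
    refine ⟨fun l => ?_, ?_⟩
    · rw [neg_neg]
      exact hM M le_rfl (i, l)
    · have h1 : (fun l => x0 k ^ M * phi k ((β i : Fin N → (k[X])[X]) l)) = x0 k ^ M • fun l => phi k ((β i : Fin N → (k[X])[X]) l) := rfl
      rw [h1, Matrix.mulVec_smul]
      congr 1
      ext1 m
      rw [Init_mul hf']
      exact congrArg (phi k) (congrFun (hP _ (β i).2) m)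
  · intro z hz
    choose ζ hζ using fun l => twist_phi (hz.1 l)
    have hζ' : z = fun l => phi k (ζ l) := by
      ext1 l
      rw [hζ l, zpow_zero, one_mul]
    have hζP : ζ ∈ P := by
      refine ⟨ζ, ?_⟩
      ext1 m
      apply phi_inj
      have h1 := congrFun hz.2 m
      rw [hζ', Init_mul hf'] at h1
      exact h1
    obtain ⟨N', hN'⟩ := Init_bound (k := k) (fun i : Fin r => β.repr ⟨ζ, hζP⟩ i)
    refine ⟨M + N', fun l hl => ⟨fun i => x0 k ^ N' * phi k (β.repr ⟨ζ, hζP⟩ i) * l, fun i => ?_, ?_⟩⟩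
    · have h1 := twist_mul (hN' N' le_rfl i) hl
      have h2 : ((N' : ℕ) : ℤ) + -((M + N' : ℕ) : ℤ) = -(M : ℤ) := by push_cast; ring
      rwa [h2] at h1
    · ext1 m
      have h1 : ζ m = ∑ i, β.repr ⟨ζ, hζP⟩ i * (β i : Fin N → (k[X])[X]) m := by
        have h2 := congrArg (fun v : P => (v : Fin N → (k[X])[X]) m) (β.sum_repr ⟨ζ, hζP⟩)
        simp only [Submodule.coe_sum, Finset.sum_apply, Submodule.coe_smul, Pi.smul_apply, smul_eq_mul] at h2
        exact h2.symm
      have h2 : z m = phi k (ζ m) := by rw [hζ']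
      rw [Pi.smul_apply, Finset.sum_apply, h2, h1, map_sum, smul_eq_mul, Finset.mul_sum]
      refine Finset.sum_congr rfl fun i _ => ?_
      rw [Pi.smul_apply, smul_eq_mul, map_mul, pow_add]
      ring

end Pool.Agent.SRL
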