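import Pool.Agent.SRL.Step
import Pool.Agent.SRL.Init
import Pool.Agent.SR.TwR
import Pool.Agent.SR.DimA

/-!
# SRL Main: `dim V = 2`: every vector bundle on `U` is a sum of line bundles `p_1^* O(i)`

`E` is a direct summand of `(A k 1)^N`: `E ≃ Im e 0` for an idempotent matrix `e`.  `Im e 0` is contained in the finite module `Tw (fun _ : Fin N => 0)`, so it is noetherian (`noeth`); choose a good family
(`init`) such that `Sp w a` is maximal (`r` is fixed); by `step` `Sp w a = Im e 0`, and `c ↦ ∑ c i • w i` is an isomorphism `Tw a ≃ Sp w a`.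
-/

set_option autoImplicit false

namespace Pool.Agent.SRL

open Polynomial Pool.Agent.SR

universe u v

variable {k : Type u} [Field k]

/-- `E` is the image of an idempotent matrix -/
private theorem main_img (E : Type v) [AddCommGroup E] [Module (A k 1) E] [Module.Finite (A k 1) E] [Module.Projective (A k 1) E] :
    ∃ (N : ℕ) (e : Matrix (Fin N) (Fin N) (A k 1)), e * e = e ∧ Nonempty (E ≃ₗ[A k 1] Im e 0) := by
  classical
  obtain ⟨N, f, hf⟩ := Module.Finite.exists_fin' (A k 1) E
  obtain ⟨s, hs⟩ := Module.projective_lifting_property f LinearMap.id hf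
  have hfs : ∀ x, f (s x) = x := fun x => LinearMap.congr_fun hs x
  refine ⟨N, LinearMap.toMatrix' (s ∘ₗ f), ?_, ?_⟩
  · rw [← LinearMap.toMatrix'_comp]
    congr 1
    refine LinearMap.ext fun v => ?_
    simp only [LinearMap.comp_apply, hfs]
  · have hmul : ∀ v : Fin N → A k 1, (LinearMap.toMatrix' (s ∘ₗ f)).mulVec v = s (f v) := fun v => by
      rw [LinearMap.toMatrix'_mulVec]
      rfl
    have hmap : ∀ v : Fin N → A k 1, ((LinearMap.toMatrix' (s ∘ₗ f)).map (algebraMap (A k 1) (K k 1))).mulVec (fun l => algebraMap (A k 1) (K k 1) (v l))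
        = fun l => algebraMap (A k 1) (K k 1) (s (f v) l) := fun v => by
      rw [← hmul v]
      funext l
      exact (RingHom.map_mulVec (algebraMap (A k 1) (K k 1)) (LinearMap.toMatrix' (s ∘ₗ f)) v l).symm
    let g : E →ₗ[A k 1] (Fin N → K k 1) :=
      { toFun := fun x l => algebraMap (A k 1) (K k 1) (s x l)
        map_add' := fun x y => by
          funext l
          rw [map_add, Pi.add_apply, map_add, Pi.add_apply]
        map_smul' := fun c x => by
          funext l
          rw [map_smul, Pi.smul_apply, smul_eq_mul, map_mul, RingHom.id_apply, Pi.smul_apply, Algebra.smul_def] }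
    have hginj : Function.Injective g := by
      intro x y hxy
      rw [← hfs x, ← hfs y]
      congr 1
      funext l
      exact A.inj (congrFun hxy l)
    have hrange : LinearMap.range g = Im (LinearMap.toMatrix' (s ∘ₗ f)) 0 := by
      ext z
      constructor
      · rintro ⟨x, rfl⟩
        refine ⟨fun l => (mem_A_iff _).2 ⟨_, rfl⟩, ?_⟩
        have h1 := hmap (s x)
        rw [hfs] at h1
        exact h1
      · rintro ⟨h1, h2⟩
        choose v hv using fun l => (mem_A_iff (z l)).1 (h1 l)
        have hz : z = fun l => algebraMap (A k 1) (K k 1) (v l) := funext fun l => (hv l).symm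
        refine ⟨f v, ?_⟩
        rw [hz, hmap v] at h2
        rw [hz]
        exact h2
    exact ⟨(LinearEquiv.ofInjective g hginj).trans (LinearEquiv.ofEq _ _ hrange)⟩

/-- the combinations of independent vectors -/
private theorem main_sp {N r : ℕ} (w : Fin r → Fin N → K k 1) (a : Fin r → ℤ) (h : LinearIndependent (K k 1) w) : Nonempty (Tw k 1 a ≃ₗ[A k 1] Sp w a) := by
  let g : Tw k 1 a →ₗ[A k 1] (Fin N → K k 1) :=
    { toFun := fun c => ∑ i, c.1 i • w i
      map_add' := fun c d => by
        rw [← Finset.sum_add_distrib]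
        exact Finset.sum_congr rfl fun i _ => add_smul _ _ _
      map_smul' := fun t c => by
        rw [RingHom.id_apply, Finset.smul_sum]
        refine Finset.sum_congr rfl fun i _ => ?_
        have h1 : (t • c).1 i = t • c.1 i := rfl
        rw [h1, smul_assoc] }
  have hinj : Function.Injective g := by
    intro c d hcd
    refine Subtype.ext (funext fun i => ?_)
    have h1 : ∑ i, (c.1 i - d.1 i) • w i = 0 := by
      have h2 : ∑ i, c.1 i • w i = ∑ i, d.1 i • w i := hcd
      simp only [sub_smul, Finset.sum_sub_distrib, h2, sub_self]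
    exact sub_eq_zero.1 (Fintype.linearIndependent_iff.1 h _ h1 i)
  have hrange : LinearMap.range g = Sp w a := by
    ext z
    constructor
    · rintro ⟨c, rfl⟩
      exact ⟨c.1, c.2, rfl⟩
    · rintro ⟨c, hc, rfl⟩
      exact ⟨⟨c, hc⟩, rfl⟩
  exact ⟨(LinearEquiv.ofInjective g hinj).trans (LinearEquiv.ofEq _ _ hrange)⟩

/-- there is a good family which generates the image -/
private theorem main_max {N : ℕ} (e : Matrix (Fin N) (Fin N) (A k 1)) (he : e * e = e) :
    ∃ (r : ℕ) (w : Fin r → Fin N → K k 1) (a : Fin r → ℤ), Good e w a ∧ Sp w a = Im e 0 := by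
  obtain ⟨r, w₀, a₀, h₀⟩ := init e he
  have hle : Im e 0 ≤ Tw k 1 (fun _ : Fin N => (0 : ℤ)) := fun z hz => hz.1
  have h1 := noeth k 1
  have h2 : Module.Finite (A k 1) (Tw k 1 (fun _ : Fin N => (0 : ℤ))) := tw_finite k 1 _
  have h3 : IsNoetherian (A k 1) (Tw k 1 (fun _ : Fin N => (0 : ℤ))) := isNoetherian_of_isNoetherianRing_of_finite _ _
  have h4 : IsNoetherian (A k 1) (Im e 0) := isNoetherian_of_le hle
  obtain ⟨M, ⟨w, a, hg, hM⟩, hmax⟩ := (set_has_maximal_iff_noetherian (R := A k 1) (M := Im e 0)).2 h4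
    {M | ∃ (w : Fin r → Fin N → K k 1) (a : Fin r → ℤ), Good e w a ∧ M = (Sp w a).comap (Im e 0).subtype} ⟨_, w₀, a₀, h₀, rfl⟩
  refine ⟨r, w, a, hg, le_antisymm (sp_le hg) fun z hz => ?_⟩
  by_contra hz'
  obtain ⟨w', a', hg', hlt⟩ := step hg hz hz'
  refine hmax _ ⟨w', a', hg', rfl⟩ ?_
  rw [hM]
  refine lt_of_le_of_ne (Submodule.comap_mono hlt.le) fun heq => hlt.ne ?_
  have h5 := congrArg (Submodule.map (Im e 0).subtype) heq
  rwa [Submodule.map_comap_subtype, Submodule.map_comap_subtype, inf_eq_right.2 (sp_le hg), inf_eq_right.2 (sp_le hg')] at h5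

theorem main (E : Type v) [AddCommGroup E] [Module (A k 1) E] [Module.Finite (A k 1) E] [Module.Projective (A k 1) E] :
    ∃ (r : ℕ) (a : Fin r → ℤ), Nonempty (E ≃ₗ[A k 1] Tw k 1 a) := by
  obtain ⟨N, e, he, ⟨φ⟩⟩ := main_img (k := k) E
  obtain ⟨r, w, a, hg, hS⟩ := main_max e he
  obtain ⟨ψ⟩ := main_sp w a hg.ind
  exact ⟨r, a, ⟨φ.trans ((LinearEquiv.ofEq _ _ hS.symm).trans ψ.symm)⟩⟩

end Pool.Agent.SRL
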