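import Pool.Agent.SRL.Chart

/-!
# SRL Rho: the restriction to the curve `x_0 = 0`

`rho z = g (0, 1, w, 1)` if `z = g / q^m` (and `0` if `z` is not of this form; `q (0, 1, w, 1) = 1`).
`rho_zero`: if `g` has bidegree `(a, b)` then the coefficient of `w^j` in `g (0, 1, w, 1)` is the coefficient of `x_1^a y_0^j y_1^(b-j)` in `g`; if all of them are zero then `x_0` divides `g`.
`rho_surj`: `w^l` is the restriction of `x_1^(j+l+N) y_0^l y_1^N / q^(l+N)`, `N` large.
-/

set_option autoImplicit false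

namespace Pool.Agent.SRL

open Polynomial Pool.Agent.SR

universe u

variable (k : Type u) [Field k]

/-- the evaluation at `(0, 1, w, 1)` -/
noncomputable def ev1 : T k 1 →ₐ[k] k[X] := MvPolynomial.aeval (Sum.elim ![0, 1] ![X, 1])

/-- the quotients `g / q^m` -/
noncomputable def TQ : Subalgebra k (K k 1) where
  carrier := {z | ∃ (m : ℕ) (g : T k 1), z * qq k ^ m = em k 1 g}
  mul_mem' := by
    rintro a b ⟨m, g, hz⟩ ⟨l, h, hw⟩
    refine ⟨m + l, g * h, ?_⟩
    rw [em_mul, ← hz, ← hw]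
    ring
  add_mem' := by
    rintro a b ⟨m, g, hz⟩ ⟨l, h, hw⟩
    refine ⟨m + l, g * q k 1 ^ l + h * q k 1 ^ m, ?_⟩
    rw [em_add, em_mul, em_mul, em_pow, em_pow, ← hz, ← hw]
    simp only [qq]
    ring
  algebraMap_mem' := by
    intro r
    refine ⟨0, MvPolynomial.C r, ?_⟩
    rw [pow_zero, mul_one]
    exact IsScalarTower.algebraMap_apply k (T k 1) (K k 1) r

open Classical in
/-- the restriction to the curve `x_0 = 0` -/
noncomputable def rho (z : K k 1) : k[X] := if h : ∃ (m : ℕ) (g : T k 1), z * qq k ^ m = em k 1 g then ev1 k h.choose_spec.choose else 0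

variable {k}

private theorem Rho_C (c : k) : ev1 k (MvPolynomial.C c) = C c := by
  rw [ev1, MvPolynomial.aeval_C]
  rfl

private theorem Rho_x0 : ev1 k (MvPolynomial.X (Sum.inl 0)) = 0 := by
  rw [ev1, MvPolynomial.aeval_X]
  rfl

private theorem Rho_x1 : ev1 k (MvPolynomial.X (Sum.inl 1)) = 1 := by
  rw [ev1, MvPolynomial.aeval_X]
  rfl

private theorem Rho_y0 : ev1 k (MvPolynomial.X (Sum.inr 0)) = X := by
  rw [ev1, MvPolynomial.aeval_X]
  rfl

private theorem Rho_y1 : ev1 k (MvPolynomial.X (Sum.inr 1)) = 1 := by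
  rw [ev1, MvPolynomial.aeval_X]
  rfl

private theorem Rho_q : ev1 k (q k 1) = 1 := by
  rw [q, Fin.sum_univ_two, map_add, map_mul, map_mul, Rho_x0, Rho_x1, Rho_y0, Rho_y1]
  ring

private theorem Rho_qq_ne : qq k ≠ 0 := emq_ne_zero

theorem rho_eq {z : K k 1} {m : ℕ} {g : T k 1} (h : z * qq k ^ m = em k 1 g) : rho k z = ev1 k g := by
  have h0 : ∃ (m : ℕ) (g : T k 1), z * qq k ^ m = em k 1 g := ⟨m, g, h⟩
  rw [rho, dif_pos h0]
  have h1 := h0.choose_spec.choose_spec
  generalize h0.choose_spec.choose = g' at h1 ⊢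
  generalize h0.choose = m' at h1
  have h2 : g' * q k 1 ^ m = g * q k 1 ^ m' := by
    apply em_inj k 1
    rw [em_mul, em_mul, em_pow, em_pow, ← h, ← h1]
    simp only [qq]
    ring
  have h3 := congrArg (ev1 k) h2
  rw [map_mul, map_mul, map_pow, map_pow, Rho_q, one_pow, one_pow, mul_one, mul_one] at h3
  exact h3

theorem twist_TQ {i : ℤ} {z : K k 1} (hz : z ∈ twist k 1 i) : z ∈ TQ k := by
  obtain ⟨m, g, -, h⟩ := hz
  exact ⟨m, g, h⟩

theorem rho_add {z w : K k 1} (hz : z ∈ TQ k) (hw : w ∈ TQ k) : rho k (z + w) = rho k z + rho k w := by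
  obtain ⟨m, g, hg⟩ := hz
  obtain ⟨l, h, hh⟩ := hw
  have e : (z + w) * qq k ^ (m + l) = em k 1 (g * q k 1 ^ l + h * q k 1 ^ m) := by
    rw [em_add, em_mul, em_mul, em_pow, em_pow, ← hg, ← hh]
    simp only [qq]
    ring
  rw [rho_eq e, rho_eq hg, rho_eq hh, map_add, map_mul, map_mul, map_pow, map_pow, Rho_q, one_pow, one_pow, mul_one, mul_one]

private theorem Rho_neg {z : K k 1} (hz : z ∈ TQ k) : rho k (-z) = -rho k z := by
  obtain ⟨m, g, hg⟩ := hz
  have e : -z * qq k ^ m = em k 1 (-g) := by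
    rw [em_neg, ← hg, neg_mul]
  rw [rho_eq e, rho_eq hg, map_neg]

theorem rho_sub {z w : K k 1} (hz : z ∈ TQ k) (hw : w ∈ TQ k) : rho k (z - w) = rho k z - rho k w := by
  rw [sub_eq_add_neg, rho_add hz ((TQ k).neg_mem hw), Rho_neg hw, sub_eq_add_neg]

theorem rho_mul {z w : K k 1} (hz : z ∈ TQ k) (hw : w ∈ TQ k) : rho k (z * w) = rho k z * rho k w := by
  obtain ⟨m, g, hg⟩ := hz
  obtain ⟨l, h, hh⟩ := hw
  have e : z * w * qq k ^ (m + l) = em k 1 (g * h) := by
    rw [em_mul, ← hg, ← hh]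
    ring
  rw [rho_eq e, rho_eq hg, rho_eq hh, map_mul]

theorem rho_x0 : rho k (x0 k) = 0 := by
  have e : x0 k * qq k ^ 0 = em k 1 (MvPolynomial.X (Sum.inl 0)) := by
    rw [pow_zero, mul_one]
    rfl
  rw [rho_eq e, Rho_x0]

private theorem Rho_wt {a b : ℤ} {m : V 1 →₀ ℕ} (h : Finsupp.weight (wt 1) m = (a, b)) :
    a = ((m (Sum.inl 0) + m (Sum.inl 1) : ℕ) : ℤ) ∧ b = ((m (Sum.inr 0) + m (Sum.inr 1) : ℕ) : ℤ) := by
  rw [Finsupp.weight_apply, Finsupp.sum_fintype m (fun i c => c • wt 1 i) (fun _ => zero_smul _ _), Fintype.sum_sum_type, Fin.sum_univ_two, Fin.sum_univ_two] at h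
  have h1 := congrArg Prod.fst h
  have h2 := congrArg Prod.snd h
  simp [wt] at h1 h2
  exact ⟨by push_cast; exact h1.symm, by push_cast; exact h2.symm⟩

/-- the coefficients of the restriction of a form -/
private theorem Rho_coeff {a b : ℤ} {g : T k 1} (hg : Bi k 1 a b g) {u : V 1 →₀ ℕ} (hu : Finsupp.weight (wt 1) u = (a, b)) (h0 : u (Sum.inl 0) = 0) :
    (ev1 k g).coeff (u (Sum.inr 0)) = g.coeff u := by
  rw [ev1, MvPolynomial.aeval_def, MvPolynomial.eval₂_eq', Polynomial.finsetSum_coeff]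
  have h : ∀ d ∈ g.support, d ≠ u → (algebraMap k k[X] (g.coeff d) * ∏ i, (Sum.elim ![(0 : k[X]), 1] ![X, 1] i) ^ d i).coeff (u (Sum.inr 0)) = 0 := by
    intro d hd hne
    have hw := hg (MvPolynomial.mem_support_iff.1 hd)
    rw [Fintype.prod_sum_type, Fin.prod_univ_two, Fin.prod_univ_two]
    simp only [Sum.elim_inl, Sum.elim_inr, Matrix.cons_val_zero, Matrix.cons_val_one, one_pow, mul_one]
    rcases Nat.eq_zero_or_pos (d (Sum.inl 0)) with hd0 | hd0
    · rw [hd0, pow_zero, one_mul, ← Polynomial.C_eq_algebraMap, Polynomial.coeff_C_mul_X_pow, if_neg]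
      intro hj
      apply hne
      obtain ⟨h1, h2⟩ := Rho_wt hw
      obtain ⟨h3, h4⟩ := Rho_wt hu
      ext i
      rcases i with i | i <;> fin_cases i
      · exact hd0.trans h0.symm
      · show d (Sum.inl 1) = u (Sum.inl 1)
        omega
      · exact hj.symm
      · show d (Sum.inr 1) = u (Sum.inr 1)
        omega
    · rw [zero_pow hd0.ne', zero_mul, mul_zero, Polynomial.coeff_zero]
  have h' : u ∉ g.support → (algebraMap k k[X] (g.coeff u) * ∏ i, (Sum.elim ![(0 : k[X]), 1] ![X, 1] i) ^ u i).coeff (u (Sum.inr 0)) = 0 := by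
    intro hd
    rw [MvPolynomial.notMem_support_iff.1 hd, map_zero, zero_mul, Polynomial.coeff_zero]
  rw [Finset.sum_eq_single u h h', Fintype.prod_sum_type, Fin.prod_univ_two, Fin.prod_univ_two]
  simp only [Sum.elim_inl, Sum.elim_inr, Matrix.cons_val_zero, Matrix.cons_val_one, one_pow, mul_one]
  rw [h0, pow_zero, one_mul, ← Polynomial.C_eq_algebraMap, Polynomial.coeff_C_mul_X_pow, if_pos rfl]

theorem rho_zero {j : ℤ} {z : K k 1} (hz : z ∈ twist k 1 j) (h : rho k z = 0) : z / x0 k ∈ twist k 1 (j - 1) := by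
  obtain ⟨m, g, hg, e⟩ := hz
  have e' : z * qq k ^ m = em k 1 g := e
  rw [rho_eq e'] at h
  have hd : (MvPolynomial.X (Sum.inl 0) : T k 1) ∣ g := by
    rw [MvPolynomial.X_dvd_iff_modMonomial_eq_zero]
    ext u
    rw [MvPolynomial.coeff_zero]
    by_cases hu : Finsupp.single (Sum.inl 0 : V 1) 1 ≤ u
    · exact MvPolynomial.coeff_modMonomial_of_le _ hu
    · rw [MvPolynomial.coeff_modMonomial_of_not_le _ hu]
      by_contra hc
      have hw := hg hc
      have h0 : u (Sum.inl 0) = 0 := by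
        by_contra h1
        exact hu (Finsupp.single_le_iff.2 (Nat.one_le_iff_ne_zero.2 h1))
      apply hc
      rw [← Rho_coeff hg hw h0, h, Polynomial.coeff_zero]
  obtain ⟨f, rfl⟩ := hd
  refine ⟨m, f, ?_, ?_⟩
  · intro u hu
    have h1 : (MvPolynomial.X (Sum.inl 0) * f).coeff (Finsupp.single (Sum.inl 0 : V 1) 1 + u) ≠ 0 := by
      rw [MvPolynomial.coeff_X_mul]
      exact hu
    have h2 := hg h1
    rw [map_add, Finsupp.weight_single] at h2
    have h3 : (1 : ℕ) • wt 1 (Sum.inl 0) = (1, 0) := by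
      rw [one_smul]
      rfl
    rw [h3] at h2
    have h4 := congrArg Prod.fst h2
    have h5 := congrArg Prod.snd h2
    rw [Prod.fst_add] at h4
    rw [Prod.snd_add] at h5
    simp only at h4 h5
    ext
    · show (Finsupp.weight (wt 1) u).1 = m + (j - 1)
      omega
    · show (Finsupp.weight (wt 1) u).2 = m
      omega
  · have h0 : x0 k ≠ 0 := x0_ne
    rw [em_mul] at e
    have h1 : em k 1 (MvPolynomial.X (Sum.inl 0)) = x0 k := rfl
    rw [h1] at e
    rw [div_mul_eq_mul_div, e, mul_div_cancel_left₀ _ h0]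

theorem rho_surj (j : ℤ) (f : k[X]) : ∃ z ∈ twist k 1 j, rho k z = f := by
  induction f using Polynomial.induction_on' with
  | add p r hp hr =>
    obtain ⟨z, hz, rfl⟩ := hp
    obtain ⟨w, hw, rfl⟩ := hr
    exact ⟨z + w, (twist k 1 j).add_mem hz hw, rho_add (twist_TQ hz) (twist_TQ hw)⟩
  | monomial n c =>
    obtain ⟨N, a, hN⟩ : ∃ N a : ℕ, (a : ℤ) = j + n + N := ⟨(-j).toNat, (j + n + (-j).toNat).toNat, by omega⟩
    have e : em k 1 (MvPolynomial.C c * MvPolynomial.X (Sum.inl 1) ^ a * MvPolynomial.X (Sum.inr 0) ^ n * MvPolynomial.X (Sum.inr 1) ^ N)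
        / qq k ^ (n + N) * qq k ^ (n + N)
        = em k 1 (MvPolynomial.C c * MvPolynomial.X (Sum.inl 1) ^ a * MvPolynomial.X (Sum.inr 0) ^ n * MvPolynomial.X (Sum.inr 1) ^ N) :=
      div_mul_cancel₀ _ (pow_ne_zero _ Rho_qq_ne)
    refine ⟨_, ⟨n + N, _, ?_, e⟩, ?_⟩
    · refine ((((Bi.C c).mul ((Bi.x 1).pow a)).mul ((Bi.y 0).pow n)).mul ((Bi.y 1).pow N)).cast ?_ ?_
      · push_cast
        rw [hN]
        ring
      · push_cast
        ring
    · rw [rho_eq e, map_mul, map_mul, map_mul, map_pow, map_pow, map_pow, Rho_C, Rho_x1, Rho_y0, Rho_y1, one_pow, one_pow, mul_one, mul_one,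
        Polynomial.C_mul_X_pow_eq_monomial]

end Pool.Agent.SRL
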