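import Pool.Agent.SRL.Euc
import Pool.Agent.SRL.Gen

/-!
# SRL Sesh: Seshadri's theorem: finite projective modules over `C[X]` are free for a principal ideal domain `C`

Call a family `b : Fin r → P` good if it is linearly independent and if for every `p : P` there is `c ≠ 0` in `C` with `C c • p ∈ span b`.  `generic` gives one.  Among the spans of good families
(with the same `r`) choose a maximal one (`P` is noetherian), `N = span b`.  Suppose `p ∉ N`.  The ideal `{c | C c • p ∈ N}` of `C` is generated by `g`, which is not zero and not a unit; let `π` be a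
prime which divides `g = π g'`; then `p' = g' p ∉ N` and `π p' ∈ N`, `π p' = ∑ c i • b i`.

STEP.  `Q (γ : Fin r → (C/π)[X])`: for all good `b` and all `c, p'` with `C π • p' = ∑ c i • b i` and `γ i` the reduction of `c i` modulo `π` there is a good `b'` with `span b < span b'`.
`euclid_ind` shows `Q γ` for all `γ ≠ 0` (`C/π` is a field; `γ ≠ 0` since `p' ∉ N`):
* `h1`: `γ j = 0` for `j ≠ i`: `c j = C π * d j`; replace `p'` by `p' - ∑_(j ≠ i) d j • b j`: now `C π • p' = c i • b i`.  `P` is projective: `ι : P → (Fin m → C[X])` with a left inverse `s`;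
  the coordinates of `ι (b i)` are divisible by `C π`, because `c i * coordinate` is divisible and the reduction of `c i` is not zero (`(C/π)[X]` is a domain); so `b i = C π • b'`, `b' = s (...)`; replace `b i` by `b'`.
* `h2`: `s' ∈ C[X]` a lift of `s`; replace `b j` by `b j + s' • b i` (the span is the same) and `c i` by `c i - s' * c j`.
-/

set_option autoImplicit false

namespace Pool.Agent.SRL

open Polynomial

universe u v

/-- good families: linearly independent, and generating up to constants. -/
private def Sesh_Good (C : Type u) [CommRing C] {P : Type v} [AddCommGroup P] [Module C[X] P] {r : ℕ} (b : Fin r → P) : Prop :=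
  LinearIndependent C[X] b ∧ ∀ p : P, ∃ c : C, c ≠ 0 ∧ Polynomial.C c • p ∈ Submodule.span C[X] (Set.range b)

private theorem Sesh_sum {C : Type u} [CommRing C] {P : Type v} [AddCommGroup P] [Module C[X] P] {r : ℕ} (b : Fin r → P)
    {i j : Fin r} (hij : i ≠ j) (s : C[X]) (a : Fin r → C[X]) :
    ∑ k, a k • Function.update b j (b j + s • b i) k = ∑ k, Function.update a i (a i + s * a j) k • b k := by
  have h1 : ∀ k, a k • Function.update b j (b j + s • b i) k = a k • b k + if k = j then (s * a j) • b i else 0 := by
    intro k
    by_cases hk : k = j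
    · subst hk
      rw [Function.update_self, if_pos rfl, smul_add, smul_smul, mul_comm s]
    · rw [Function.update_of_ne hk, if_neg hk, add_zero]
  have h2 : ∀ k, Function.update a i (a i + s * a j) k • b k = a k • b k + if k = i then (s * a j) • b i else 0 := by
    intro k
    by_cases hk : k = i
    · subst hk
      rw [Function.update_self, if_pos rfl, add_smul]
    · rw [Function.update_of_ne hk, if_neg hk, add_zero]
  simp only [h1, h2, Finset.sum_add_distrib, Finset.sum_ite_eq', Finset.mem_univ, if_true]

private theorem Sesh_span {C : Type u} [CommRing C] {P : Type v} [AddCommGroup P] [Module C[X] P] {r : ℕ} (b : Fin r → P)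
    {i j : Fin r} (hij : i ≠ j) (s : C[X]) :
    Submodule.span C[X] (Set.range (Function.update b j (b j + s • b i))) = Submodule.span C[X] (Set.range b) := by
  apply le_antisymm
  · rw [Submodule.span_le]
    rintro _ ⟨k, rfl⟩
    by_cases hk : k = j
    · subst hk
      rw [Function.update_self]
      exact add_mem (Submodule.subset_span ⟨k, rfl⟩) (Submodule.smul_mem _ _ (Submodule.subset_span ⟨i, rfl⟩))
    · rw [Function.update_of_ne hk]
      exact Submodule.subset_span ⟨k, rfl⟩
  · rw [Submodule.span_le]
    have hm : ∀ k, k ≠ j → b k ∈ Submodule.span C[X] (Set.range (Function.update b j (b j + s • b i))) := by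
      intro k hk
      exact Submodule.subset_span ⟨k, Function.update_of_ne hk _ _⟩
    rintro _ ⟨k, rfl⟩
    by_cases hk : k = j
    · subst hk
      have h2 : b k + s • b i ∈ Submodule.span C[X] (Set.range (Function.update b k (b k + s • b i))) :=
        Submodule.subset_span ⟨k, Function.update_self _ _ _⟩
      have h1 := sub_mem h2 (Submodule.smul_mem _ s (hm i hij))
      rwa [add_sub_cancel_right] at h1
    · exact hm k hk

private theorem Sesh_good {C : Type u} [CommRing C] {P : Type v} [AddCommGroup P] [Module C[X] P] {r : ℕ} (b : Fin r → P)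
    {i j : Fin r} (hij : i ≠ j) (s : C[X]) (hb : Sesh_Good C b) : Sesh_Good C (Function.update b j (b j + s • b i)) := by
  refine ⟨?_, ?_⟩
  · rw [Fintype.linearIndependent_iff]
    intro a ha
    rw [Sesh_sum b hij] at ha
    have h := (Fintype.linearIndependent_iff.mp hb.1) _ ha
    have hj : a j = 0 := by
      have := h j
      rwa [Function.update_of_ne hij.symm] at this
    intro k
    have hk := h k
    by_cases hki : k = i
    · subst hki
      rw [Function.update_self, hj, mul_zero, add_zero] at hk
      exact hk
    · rwa [Function.update_of_ne hki] at hk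
  · rw [Sesh_span b hij]
    exact hb.2

private theorem Sesh_map {C : Type u} [CommRing C] (π : C) (f : C[X]) :
    f.map (Ideal.Quotient.mk (Ideal.span {π})) = 0 ↔ Polynomial.C π ∣ f := by
  rw [Polynomial.C_dvd_iff_dvd_coeff, Polynomial.ext_iff]
  refine forall_congr' fun n => ?_
  rw [Polynomial.coeff_map, Polynomial.coeff_zero, Ideal.Quotient.eq_zero_iff_mem, Ideal.mem_span_singleton]

/-- the case in which `C π • p' = c i • b i`. -/
private theorem Sesh_h1 {C : Type u} [CommRing C] [IsDomain C] [IsPrincipalIdealRing C] {P : Type v} [AddCommGroup P] [Module C[X] P]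
    [Module.Finite C[X] P] [Module.Projective C[X] P] {π : C} (hπ : Prime π) {r : ℕ} (b : Fin r → P) (hb : Sesh_Good C b) (i : Fin r) (c : C[X]) (p : P)
    (hc : ¬ Polynomial.C π ∣ c) (hp : Polynomial.C π • p = c • b i) :
    ∃ b' : Fin r → P, Sesh_Good C b' ∧ Submodule.span C[X] (Set.range b) < Submodule.span C[X] (Set.range b') := by
  obtain ⟨m, f, g, -, -, hfg⟩ := Module.Finite.exists_comp_eq_id_of_projective C[X] P
  have hCπ : Prime (Polynomial.C π) := Polynomial.prime_C_iff.mpr hπ
  have h0 : Polynomial.C π ≠ 0 := hCπ.ne_zero
  have h1 : ∀ k, Polynomial.C π ∣ g (b i) k := by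
    intro k
    have h2 : Polynomial.C π * g p k = c * g (b i) k := by
      have := congrArg (fun q => g q k) hp
      simpa using this
    exact (hCπ.dvd_or_dvd ⟨g p k, h2.symm⟩).resolve_left hc
  choose w hw using h1
  set β : P := f w with hβ
  have hbi : b i = Polynomial.C π • β := by
    have h3 : g (b i) = Polynomial.C π • w := by
      ext1 k
      rw [hw k]
      rfl
    have h4 : f (g (b i)) = b i := by
      have := LinearMap.congr_fun hfg (b i)
      simpa using this
    rw [← h4, h3, map_smul]
  have hsum : ∀ a : Fin r → C[X], Polynomial.C π • ∑ k, a k • Function.update b i β k =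
      ∑ k, (if k = i then a i else Polynomial.C π * a k) • b k := by
    intro a
    rw [Finset.smul_sum]
    refine Finset.sum_congr rfl fun k _ => ?_
    by_cases hk : k = i
    · subst hk
      rw [Function.update_self, if_pos rfl, hbi, smul_comm]
    · rw [Function.update_of_ne hk, if_neg hk, smul_smul]
  have hle : Submodule.span C[X] (Set.range b) ≤ Submodule.span C[X] (Set.range (Function.update b i β)) := by
    rw [Submodule.span_le]
    rintro _ ⟨k, rfl⟩
    by_cases hk : k = i
    · subst hk
      rw [hbi]
      exact Submodule.smul_mem _ _ (Submodule.subset_span ⟨k, Function.update_self _ _ _⟩)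
    · exact Submodule.subset_span ⟨k, Function.update_of_ne hk _ _⟩
  refine ⟨Function.update b i β, ⟨?_, ?_⟩, lt_of_le_of_ne hle ?_⟩
  · rw [Fintype.linearIndependent_iff]
    intro a ha
    have h5 := hsum a
    rw [ha, smul_zero] at h5
    have h6 := (Fintype.linearIndependent_iff.mp hb.1) _ h5.symm
    intro k
    have h7 := h6 k
    by_cases hk : k = i
    · subst hk
      simpa using h7
    · rw [if_neg hk] at h7
      exact (mul_eq_zero.mp h7).resolve_left h0
  · intro q
    obtain ⟨d, hd, hdq⟩ := hb.2 q
    exact ⟨d, hd, hle hdq⟩
  · intro heq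
    have h8 : β ∈ Submodule.span C[X] (Set.range b) := by
      rw [heq]
      exact Submodule.subset_span ⟨i, Function.update_self _ _ _⟩
    rw [Submodule.mem_span_range_iff_exists_fun] at h8
    obtain ⟨e, he⟩ := h8
    have h9 : ∑ k, (Polynomial.C π * e k - if k = i then 1 else 0) • b k = 0 := by
      simp only [sub_smul, Finset.sum_sub_distrib, ite_smul, one_smul, zero_smul, Finset.sum_ite_eq', Finset.mem_univ, if_true]
      rw [hbi, ← he, Finset.smul_sum]
      simp only [smul_smul]
      rw [sub_self]
    have h10 := (Fintype.linearIndependent_iff.mp hb.1) _ h9 i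
    rw [if_pos rfl, sub_eq_zero] at h10
    exact hCπ.not_isUnit (IsUnit.of_mul_eq_one _ h10)

theorem seshadri {C : Type u} [CommRing C] [IsDomain C] [IsPrincipalIdealRing C] (P : Type v) [AddCommGroup P] [Module C[X] P] [Module.Finite C[X] P] [Module.Projective C[X] P] :
    Module.Free C[X] P := by
  obtain ⟨r, b0, hb0⟩ := generic (C := C) P
  obtain ⟨N, ⟨b, hb, hbN⟩, hmax⟩ := (set_has_maximal_iff_noetherian (R := C[X]) (M := P)).mpr inferInstance
    {N : Submodule C[X] P | ∃ b : Fin r → P, Sesh_Good C b ∧ Submodule.span C[X] (Set.range b) = N} ⟨_, b0, hb0, rfl⟩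
  have hno : ∀ b' : Fin r → P, Sesh_Good C b' → ¬ Submodule.span C[X] (Set.range b) < Submodule.span C[X] (Set.range b') := by
    intro b' hb'
    rw [hbN]
    exact hmax _ ⟨b', hb', rfl⟩
  suffices htop : ∀ p : P, p ∈ Submodule.span C[X] (Set.range b) from
    Module.Free.of_basis (Module.Basis.mk hb.1 (fun p _ => htop p))
  have key : ∀ c : C, c ≠ 0 → ∀ p : P, Polynomial.C c • p ∈ Submodule.span C[X] (Set.range b) →
      p ∈ Submodule.span C[X] (Set.range b) := by
    intro c
    induction c using UniqueFactorizationMonoid.induction_on_prime with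
    | h₁ => intro h; exact absurd rfl h
    | h₂ x hx =>
      intro _ p hp
      have hx' : IsUnit (Polynomial.C x) := Polynomial.isUnit_C.mpr hx
      exact (Submodule.smul_mem_iff_of_isUnit _ hx').mp hp
    | h₃ a π ha hπ ih =>
      intro _ p hp
      rw [Polynomial.C_mul, mul_smul] at hp
      apply ih ha
      by_contra hq
      generalize Polynomial.C a • p = q at hp hq
      have hmaxI : (Ideal.span {π}).IsMaximal := PrincipalIdealRing.isMaximal_of_irreducible hπ.irreducible
      let _ : Field (C ⧸ Ideal.span {π}) := Ideal.Quotient.field _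
      set φ : C[X] → (C ⧸ Ideal.span {π})[X] := fun f => f.map (Ideal.Quotient.mk (Ideal.span {π})) with hφ
      have hsurj : Function.Surjective φ := Polynomial.map_surjective _ Ideal.Quotient.mk_surjective
      have hind : ∀ γ : Fin r → (C ⧸ Ideal.span {π})[X], γ ≠ 0 → ∀ (b : Fin r → P) (c : Fin r → C[X]) (q : P), Sesh_Good C b →
          Polynomial.C π • q = ∑ k, c k • b k → (∀ k, φ (c k) = γ k) →
          ∃ b' : Fin r → P, Sesh_Good C b' ∧ Submodule.span C[X] (Set.range b) < Submodule.span C[X] (Set.range b') := by
        intro γ hγ
        refine euclid_ind (fun γ => ∀ (b : Fin r → P) (c : Fin r → C[X]) (q : P), Sesh_Good C b →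
          Polynomial.C π • q = ∑ k, c k • b k → (∀ k, φ (c k) = γ k) →
          ∃ b' : Fin r → P, Sesh_Good C b' ∧ Submodule.span C[X] (Set.range b) < Submodule.span C[X] (Set.range b')) ?_ ?_ γ hγ
        · intro γ i hi hj b c q hb hq hc
          have hdv : ∀ k, k ≠ i → Polynomial.C π ∣ c k := by
            intro k hk
            rw [← Sesh_map]
            exact (hc k).trans (hj k hk)
          choose! d hd using hdv
          refine Sesh_h1 hπ b hb i (c i) (q - ∑ k ∈ Finset.univ.erase i, d k • b k) ?_ ?_
          · rw [← Sesh_map]
            intro h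
            exact hi ((hc i).symm.trans h)
          · rw [smul_sub, hq, Finset.smul_sum, ← Finset.add_sum_erase _ _ (Finset.mem_univ i), add_sub_assoc]
            rw [← Finset.sum_sub_distrib, Finset.sum_eq_zero, add_zero]
            intro k hk
            rw [smul_smul, ← hd k (Finset.ne_of_mem_erase hk), sub_self]
        · intro γ i j s hij hQ b c q hb hq hc
          obtain ⟨s', hs'⟩ := hsurj s
          have hgood := Sesh_good b hij s' hb
          obtain ⟨b', hb', hlt⟩ := hQ (Function.update b j (b j + s' • b i)) (Function.update c i (c i - s' * c j)) q hgood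
            (by
              rw [Sesh_sum b hij, Function.update_self, Function.update_of_ne hij.symm, Function.update_idem, sub_add_cancel,
                Function.update_eq_self]
              exact hq)
            (by
              intro k
              by_cases hk : k = i
              · subst hk
                rw [Function.update_self, Function.update_self, ← hc k, ← hc j, ← hs']
                simp only [hφ, Polynomial.map_sub, Polynomial.map_mul]
              · rw [Function.update_of_ne hk, Function.update_of_ne hk]
                exact hc k)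
          rw [Sesh_span b hij] at hlt
          exact ⟨b', hb', hlt⟩
      rw [Submodule.mem_span_range_iff_exists_fun] at hp
      obtain ⟨c, hc⟩ := hp
      have hne : (fun k => φ (c k)) ≠ 0 := by
        intro h0
        have hdv : ∀ k, Polynomial.C π ∣ c k := by
          intro k
          rw [← Sesh_map]
          exact congrFun h0 k
        choose d hd using hdv
        apply hq
        have h1 : Polynomial.C π • q = Polynomial.C π • ∑ k, d k • b k := by
          rw [← hc, Finset.smul_sum]
          refine Finset.sum_congr rfl fun k _ => ?_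
          rw [smul_smul, ← hd k]
        have h2 : Polynomial.C π ≠ 0 := (Polynomial.prime_C_iff.mpr hπ).ne_zero
        have h3 : q = ∑ k, d k • b k := smul_right_injective P h2 h1
        rw [h3]
        exact Submodule.sum_mem _ fun k _ => Submodule.smul_mem _ _ (Submodule.subset_span ⟨k, rfl⟩)
      obtain ⟨b', hb', hlt⟩ := hind _ hne b c q hb hc.symm (fun k => rfl)
      exact hno b' hb' hlt
  intro p
  obtain ⟨c, hc, hcp⟩ := hb.2 p
  exact key c hc p hcp

end Pool.Agent.SRL
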