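import Pool.Agent.SRL.Euc
import Pool.Agent.SRL.Fam

/-!
# SRL Step: a good family which does not generate the image of `e` can be enlarged

`Q (γ : Fin r → k[X])`: for all `w` with `Good e w a` (`a` is fixed) and all `c : Fin r → K` with `∑ c i • w i ∈ Im e 0`, `x_0 * c i ∈ twist (a i + 1)` and `rho (x_0 * c i) = γ i`
there are `w', a'` with `Good e w' a'` and `Sp w a < Sp w' a'`.  `euclid_ind` shows `Q γ` for `γ ≠ 0` (`step_ind`):
* `h1`: `γ j = 0` for `j ≠ i`: `c j ∈ twist (a j)` (`rho_zero`), so `c i • w i ∈ Im e 0`, and `λ = x_0 * c i ∈ twist (a i + 1)` has `rho λ ≠ 0`.  For every coordinate `(w i) l ∈ twist (-a i)`: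
  `λ * (w i) l = x_0 * (c i * (w i) l)` has `rho = 0`, so `rho ((w i) l) = 0` and `(w i) l / x_0 ∈ twist (-a i - 1)`.  Take `w' i = x_0⁻¹ • w i`, `a' i = a i + 1`
  (`c i • w i = λ • w' i` is in `Sp w' a'` and not in `Sp w a`).
* `h2`: `s' ∈ twist (a i - a j)` with `rho s' = s` (`rho_surj`), `w' j = w j + s' • w i`, `c' i = c i - s' * c j`.
`step`: for `z ∈ Im e 0`, `z ∉ Sp w a` take the smallest `n` in `Good.cof`; `n ≥ 1`, and there is `l₀ ∈ twist (-(n-1))` with `z' = (x_0^(n-1) * l₀) • z ∉ Sp w a`, but `(x_0 * l) • z' ∈ Sp w a` for all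
`l ∈ twist (-1)`.  So `z' = ∑ c i • w i` with `x_0 * l * c i ∈ twist (a i)`, and `x_0 * c i ∈ twist (a i + 1)` by `of_neg`; not all `rho (x_0 * c i)` are zero, since `z' ∉ Sp w a`.
-/

set_option autoImplicit false

namespace Pool.Agent.SRL

open Polynomial Pool.Agent.SR

universe u

variable {k : Type u} [Field k] {N r : ℕ}

private theorem Step_x0 : x0 k ∈ twist k 1 1 := x_mem 0

private theorem Step_pow (n : ℕ) : x0 k ^ n ∈ twist k 1 (n : ℤ) := by
  induction n with
  | zero =>
    rw [pow_zero, Nat.cast_zero, mem_A_iff]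
    exact ⟨1, map_one _⟩
  | succ n ih =>
    rw [pow_succ]
    have h := twist_mul ih (Step_x0 (k := k))
    push_cast
    exact h

private theorem Step_cast {i j : ℤ} {z : K k 1} (hz : z ∈ twist k 1 i) (h : i = j) : z ∈ twist k 1 j := by
  subst h
  exact hz

private theorem Step_castIm {e : Matrix (Fin N) (Fin N) (A k 1)} {i j : ℤ} {z : Fin N → K k 1} (hz : z ∈ Im e i) (h : i = j) : z ∈ Im e j := by
  subst h
  exact hz

private theorem Step_div {b : ℤ} {c : K k 1} (h : x0 k * c ∈ twist k 1 (b + 1)) (h0 : rho k (x0 k * c) = 0) : c ∈ twist k 1 b := by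
  have h1 := rho_zero h h0
  rw [mul_div_cancel_left₀ _ (x0_ne (k := k))] at h1
  exact Step_cast h1 (by ring)

private theorem Step_rho {b : ℤ} {c : K k 1} (h : c ∈ twist k 1 b) : rho k (x0 k * c) = 0 := by
  rw [rho_mul (twist_TQ Step_x0) (twist_TQ h), rho_x0, zero_mul]

/-- coefficients with respect to a linearly independent family are unique -/
private theorem Step_uniq {w : Fin r → Fin N → K k 1} (h : LinearIndependent (K k 1) w) {c d : Fin r → K k 1} (e : ∑ i, c i • w i = ∑ i, d i • w i) (i : Fin r) :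
    c i = d i := by
  rw [Fintype.linearIndependent_iff] at h
  have h1 : ∑ i, (c i - d i) • w i = 0 := by
    simp only [sub_smul, Finset.sum_sub_distrib]
    rw [e, sub_self]
  exact sub_eq_zero.1 (h _ h1 i)

private theorem Step_sp {w : Fin r → Fin N → K k 1} {a : Fin r → ℤ} {c : Fin r → K k 1} (hc : ∀ i, c i ∈ twist k 1 (a i)) : ∑ i, c i • w i ∈ Sp w a := ⟨c, hc, rfl⟩

/-- the sum is not changed by the scaling -/
private theorem Step_scale (w : Fin r → Fin N → K k 1) (c : Fin r → K k 1) (i : Fin r) :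
    ∑ l, c l • w l = ∑ l, Function.update c i (x0 k * c i) l • Function.update w i ((x0 k)⁻¹ • w i) l := by
  refine Finset.sum_congr rfl fun l _ => ?_
  by_cases hl : l = i
  · subst hl
    rw [Function.update_self, Function.update_self, smul_smul, mul_comm (x0 k) (c l), mul_assoc, mul_inv_cancel₀ (x0_ne (k := k)), mul_one]
  · rw [Function.update_of_ne hl, Function.update_of_ne hl]

/-- the sum is not changed by the transvection -/
private theorem Step_trans (w : Fin r → Fin N → K k 1) (c : Fin r → K k 1) {i j : Fin r} (hij : i ≠ j) (s : K k 1) :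
    ∑ l, Function.update c i (c i - s * c j) l • Function.update w j (w j + s • w i) l = ∑ l, c l • w l := by
  have h1 : ∀ l, Function.update c i (c i - s * c j) l = c l - (if l = i then s * c j else 0) := by
    intro l
    by_cases hl : l = i
    · subst hl
      rw [Function.update_self, if_pos rfl]
    · rw [Function.update_of_ne hl, if_neg hl, sub_zero]
  have h2 : ∀ l, Function.update w j (w j + s • w i) l = w l + (if l = j then s • w i else 0) := by
    intro l
    by_cases hl : l = j
    · subst hl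
      rw [Function.update_self, if_pos rfl]
    · rw [Function.update_of_ne hl, if_neg hl, add_zero]
  have h3 : ∀ l, Function.update c i (c i - s * c j) l • Function.update w j (w j + s • w i) l
      = c l • w l + ((if l = j then (c j * s) • w i else 0) - (if l = i then (s * c j) • w i else 0)) := by
    intro l
    rw [h1, h2]
    by_cases hl : l = i
    · subst hl
      rw [if_pos rfl, if_neg hij, if_neg hij, if_pos rfl, add_zero, sub_smul]
      rw [zero_sub, sub_eq_add_neg]
    · rw [if_neg hl, sub_zero, if_neg hl, sub_zero, smul_add]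
      by_cases hl' : l = j
      · subst hl'
        rw [if_pos rfl, if_pos rfl, smul_smul]
      · rw [if_neg hl', if_neg hl', smul_zero]
  rw [Finset.sum_congr rfl fun l _ => h3 l, Finset.sum_add_distrib, Finset.sum_sub_distrib, Finset.sum_ite_eq', Finset.sum_ite_eq', if_pos (Finset.mem_univ _),
    if_pos (Finset.mem_univ _), mul_comm (c j) s, sub_self, add_zero]

private theorem Step_h1 {e : Matrix (Fin N) (Fin N) (A k 1)} {a : Fin r → ℤ} (γ : Fin r → k[X]) (i : Fin r) (hi : γ i ≠ 0) (hj : ∀ j, j ≠ i → γ j = 0)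
    (w : Fin r → Fin N → K k 1) (hw : Good e w a) (c : Fin r → K k 1) (hc : ∑ i, c i • w i ∈ Im e 0) (hc1 : ∀ i, x0 k * c i ∈ twist k 1 (a i + 1))
    (hγ : ∀ i, rho k (x0 k * c i) = γ i) :
    ∃ (w' : Fin r → Fin N → K k 1) (a' : Fin r → ℤ), Good e w' a' ∧ Sp w a < Sp w' a' := by
  have hx := x0_ne (k := k)
  have hcj : ∀ j, j ≠ i → c j ∈ twist k 1 (a j) := fun j hj' => Step_div (hc1 j) ((hγ j).trans (hj j hj'))
  -- the vector `c i • w i`
  have hci : c i • w i ∈ Im e 0 := by
    have h1 : ∑ j ∈ Finset.univ.erase i, c j • w j ∈ Im e 0 := by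
      refine Submodule.sum_mem _ fun j hj' => ?_
      exact Step_castIm (im_smul (hcj j (Finset.ne_of_mem_erase hj')) (hw.mem j)) (add_neg_cancel _)
    have h2 : c i • w i = ∑ j, c j • w j - ∑ j ∈ Finset.univ.erase i, c j • w j := by
      rw [← Finset.add_sum_erase _ _ (Finset.mem_univ i), add_sub_cancel_right]
    rw [h2]
    exact Submodule.sub_mem _ hc h1
  -- the coordinates of `w i` are divisible by `x_0`
  have hwi : ∀ l, rho k (w i l) = 0 := by
    intro l
    have h1 : c i * w i l ∈ twist k 1 0 := hci.1 l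
    have h2 : w i l ∈ twist k 1 (-a i) := (hw.mem i).1 l
    have h3 : rho k (x0 k * c i * w i l) = 0 := by
      rw [mul_assoc]
      exact Step_rho h1
    rw [rho_mul (twist_TQ (hc1 i)) (twist_TQ h2), hγ i] at h3
    exact (mul_eq_zero.1 h3).resolve_left hi
  have hle : Sp w a ≤ Sp (Function.update w i ((x0 k)⁻¹ • w i)) (Function.update a i (a i + 1)) := by
    rintro z ⟨d, hd, rfl⟩
    refine ⟨Function.update d i (x0 k * d i), fun l => ?_, Step_scale w d i⟩
    by_cases hl : l = i
    · subst hl
      rw [Function.update_self, Function.update_self]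
      exact Step_cast (twist_mul Step_x0 (hd l)) (by ring)
    · rw [Function.update_of_ne hl, Function.update_of_ne hl]
      exact hd l
  refine ⟨Function.update w i ((x0 k)⁻¹ • w i), Function.update a i (a i + 1), ⟨?_, ?_, ?_⟩, lt_of_le_of_ne hle ?_⟩
  · rw [Fintype.linearIndependent_iff]
    intro g hg
    have h1 : ∑ l, Function.update g i ((x0 k)⁻¹ * g i) l • w l = ∑ l, (0 : K k 1) • w l := by
      rw [Step_scale w _ i]
      simp only [zero_smul, Finset.sum_const_zero]
      rw [← hg]
      refine Finset.sum_congr rfl fun l _ => ?_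
      by_cases hl : l = i
      · subst hl
        rw [Function.update_self, Function.update_self, mul_inv_cancel_left₀ hx]
      · rw [Function.update_of_ne hl, Function.update_of_ne hl]
    intro l
    have h2 := Step_uniq hw.ind h1 l
    by_cases hl : l = i
    · subst hl
      rw [Function.update_self] at h2
      exact (mul_eq_zero.1 h2).resolve_left (inv_ne_zero hx)
    · rwa [Function.update_of_ne hl] at h2
  · intro l
    by_cases hl : l = i
    · subst hl
      rw [Function.update_self, Function.update_self]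
      refine ⟨fun m => ?_, ?_⟩
      · rw [Pi.smul_apply, smul_eq_mul, mul_comm, ← div_eq_mul_inv]
        exact Step_cast (rho_zero ((hw.mem l).1 m) (hwi m)) (by ring)
      · rw [Matrix.mulVec_smul, (hw.mem l).2]
    · rw [Function.update_of_ne hl, Function.update_of_ne hl]
      exact hw.mem l
  · intro z hz
    obtain ⟨n, hn⟩ := hw.cof z hz
    exact ⟨n, fun l hl => hle (hn l hl)⟩
  · intro he
    have h1 : c i • w i ∈ Sp (Function.update w i ((x0 k)⁻¹ • w i)) (Function.update a i (a i + 1)) := by
      refine ⟨Pi.single i (x0 k * c i), fun l => ?_, ?_⟩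
      · by_cases hl : l = i
        · subst hl
          rw [Pi.single_eq_same, Function.update_self]
          exact hc1 l
        · rw [Pi.single_eq_of_ne hl]
          exact Submodule.zero_mem _
      · rw [Finset.sum_eq_single i]
        · rw [Pi.single_eq_same, Function.update_self, smul_smul, mul_comm (x0 k) (c i), mul_assoc, mul_inv_cancel₀ hx, mul_one]
        · intro l _ hl
          rw [Pi.single_eq_of_ne hl, zero_smul]
        · intro h
          exact absurd (Finset.mem_univ i) h
    rw [← he] at h1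
    obtain ⟨d, hd, h2⟩ := h1
    have h3 : ∑ l, (Pi.single i (c i) : Fin r → K k 1) l • w l = ∑ l, d l • w l := by
      rw [← h2, Finset.sum_eq_single i]
      · rw [Pi.single_eq_same]
      · intro l _ hl
        rw [Pi.single_eq_of_ne hl, zero_smul]
      · intro h
        exact absurd (Finset.mem_univ i) h
    have h4 := Step_uniq hw.ind h3 i
    rw [Pi.single_eq_same] at h4
    have h5 : c i ∈ twist k 1 (a i) := by
      rw [h4]
      exact hd i
    exact hi ((hγ i).symm.trans (Step_rho h5))

private theorem Step_h2 {e : Matrix (Fin N) (Fin N) (A k 1)} {a : Fin r → ℤ} (γ : Fin r → k[X]) (i j : Fin r) (s : k[X]) (hij : i ≠ j)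
    (hQ : ∀ w : Fin r → Fin N → K k 1, Good e w a → ∀ c : Fin r → K k 1, ∑ i, c i • w i ∈ Im e 0 → (∀ i, x0 k * c i ∈ twist k 1 (a i + 1)) →
      (∀ l, rho k (x0 k * c l) = Function.update γ i (γ i - s * γ j) l) → ∃ (w' : Fin r → Fin N → K k 1) (a' : Fin r → ℤ), Good e w' a' ∧ Sp w a < Sp w' a')
    (w : Fin r → Fin N → K k 1) (hw : Good e w a) (c : Fin r → K k 1) (hc : ∑ i, c i • w i ∈ Im e 0) (hc1 : ∀ i, x0 k * c i ∈ twist k 1 (a i + 1))
    (hγ : ∀ i, rho k (x0 k * c i) = γ i) :
    ∃ (w' : Fin r → Fin N → K k 1) (a' : Fin r → ℤ), Good e w' a' ∧ Sp w a < Sp w' a' := by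
  obtain ⟨s', hs, hs'⟩ := rho_surj (a i - a j) s
  have hle : Sp w a ≤ Sp (Function.update w j (w j + s' • w i)) a := by
    rintro z ⟨d, hd, rfl⟩
    refine ⟨Function.update d i (d i - s' * d j), fun l => ?_, (Step_trans w d hij s').symm⟩
    by_cases hl : l = i
    · subst hl
      rw [Function.update_self]
      exact Submodule.sub_mem _ (hd l) (Step_cast (twist_mul hs (hd j)) (by ring))
    · rw [Function.update_of_ne hl]
      exact hd l
  have hG : Good e (Function.update w j (w j + s' • w i)) a := by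
    refine ⟨?_, ?_, ?_⟩
    · rw [Fintype.linearIndependent_iff]
      intro g hg
      have h1 : ∑ l, Function.update g i (g i + s' * g j) l • w l = ∑ l, (0 : K k 1) • w l := by
        rw [← Step_trans w _ hij s']
        simp only [zero_smul, Finset.sum_const_zero]
        rw [← hg]
        refine Finset.sum_congr rfl fun l _ => ?_
        by_cases hl : l = i
        · subst hl
          rw [Function.update_self, Function.update_self, Function.update_of_ne hij.symm, add_sub_cancel_right]
        · rw [Function.update_of_ne hl, Function.update_of_ne hl]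
      have h2 := Step_uniq hw.ind h1
      have h3 : g j = 0 := by
        have h4 := h2 j
        rwa [Function.update_of_ne hij.symm] at h4
      intro l
      have h4 := h2 l
      by_cases hl : l = i
      · subst hl
        rw [Function.update_self, h3, mul_zero, add_zero] at h4
        exact h4
      · rwa [Function.update_of_ne hl] at h4
    · intro l
      by_cases hl : l = j
      · subst hl
        rw [Function.update_self]
        exact Submodule.add_mem _ (hw.mem l) (Step_castIm (im_smul hs (hw.mem i)) (by ring))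
      · rw [Function.update_of_ne hl]
        exact hw.mem l
    · intro z hz
      obtain ⟨n, hn⟩ := hw.cof z hz
      exact ⟨n, fun l hl => hle (hn l hl)⟩
  have h5 : ∀ l, x0 k * Function.update c i (c i - s' * c j) l ∈ twist k 1 (a l + 1) := by
    intro l
    by_cases hl : l = i
    · subst hl
      rw [Function.update_self]
      have h3 : x0 k * (c l - s' * c j) = x0 k * c l - s' * (x0 k * c j) := by ring
      rw [h3]
      exact Submodule.sub_mem _ (hc1 l) (Step_cast (twist_mul hs (hc1 j)) (by ring))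
    · rw [Function.update_of_ne hl]
      exact hc1 l
  have h6 : ∀ l, rho k (x0 k * Function.update c i (c i - s' * c j) l) = Function.update γ i (γ i - s * γ j) l := by
    intro l
    by_cases hl : l = i
    · subst hl
      rw [Function.update_self, Function.update_self]
      have h3 : x0 k * (c l - s' * c j) = x0 k * c l - s' * (x0 k * c j) := by ring
      rw [h3, rho_sub (twist_TQ (hc1 l)) (twist_TQ (twist_mul hs (hc1 j))), rho_mul (twist_TQ hs) (twist_TQ (hc1 j)), hγ, hγ, hs']
    · rw [Function.update_of_ne hl, Function.update_of_ne hl]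
      exact hγ l
  obtain ⟨w', a', h1, h2⟩ := hQ _ hG (Function.update c i (c i - s' * c j)) (by rw [Step_trans w c hij s']; exact hc) h5 h6
  exact ⟨w', a', h1, lt_of_le_of_lt hle h2⟩

theorem step_ind {e : Matrix (Fin N) (Fin N) (A k 1)} {a : Fin r → ℤ} (γ : Fin r → k[X]) (hγ : γ ≠ 0) :
    ∀ w : Fin r → Fin N → K k 1, Good e w a → ∀ c : Fin r → K k 1, ∑ i, c i • w i ∈ Im e 0 → (∀ i, x0 k * c i ∈ twist k 1 (a i + 1)) → (∀ i, rho k (x0 k * c i) = γ i) →
      ∃ (w' : Fin r → Fin N → K k 1) (a' : Fin r → ℤ), Good e w' a' ∧ Sp w a < Sp w' a' :=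
  euclid_ind (fun γ : Fin r → k[X] => ∀ w : Fin r → Fin N → K k 1, Good e w a → ∀ c : Fin r → K k 1, ∑ i, c i • w i ∈ Im e 0 →
      (∀ i, x0 k * c i ∈ twist k 1 (a i + 1)) → (∀ i, rho k (x0 k * c i) = γ i) →
      ∃ (w' : Fin r → Fin N → K k 1) (a' : Fin r → ℤ), Good e w' a' ∧ Sp w a < Sp w' a')
    (fun γ i hi hj w hw c hc hc1 hγ => Step_h1 γ i hi hj w hw c hc hc1 hγ)
    (fun γ i j s hij hQ w hw c hc hc1 hγ => Step_h2 γ i j s hij hQ w hw c hc hc1 hγ) γ hγ

theorem step {e : Matrix (Fin N) (Fin N) (A k 1)} {w : Fin r → Fin N → K k 1} {a : Fin r → ℤ} (h : Good e w a) {z : Fin N → K k 1} (hz : z ∈ Im e 0) (hz' : z ∉ Sp w a) :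
    ∃ (w' : Fin r → Fin N → K k 1) (a' : Fin r → ℤ), Good e w' a' ∧ Sp w a < Sp w' a' := by
  classical
  have hx := x0_ne (k := k)
  have hex := h.cof z hz
  have hP := Nat.find_spec hex
  have hmin : ∀ m, m < Nat.find hex → ¬ ∀ l ∈ twist k 1 (-(m : ℤ)), (x0 k ^ m * l) • z ∈ Sp w a := fun m hm => Nat.find_min hex hm
  generalize Nat.find hex = n at hP hmin
  obtain _ | n := n
  · exfalso
    have h1 := hP 1 ((mem_A_iff _).2 ⟨1, map_one _⟩ |> fun h => Step_cast h (by simp))
    rw [pow_zero, mul_one, one_smul] at h1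
    exact hz' h1
  have h1 := hmin n (Nat.lt_succ_self n)
  push Not at h1
  obtain ⟨l₀, hl₀, hn⟩ := h1
  have hz0 : (x0 k ^ n * l₀) • z ∈ Im e 0 :=
    Step_castIm (im_smul (twist_mul (Step_pow n) hl₀) hz) (by ring)
  have hP' : ∀ l ∈ twist k 1 (-1), (x0 k * l) • ((x0 k ^ n * l₀) • z) ∈ Sp w a := by
    intro l hl
    rw [smul_smul]
    have h2 := hP (l * l₀) (Step_cast (twist_mul hl hl₀) (by push_cast; ring))
    have h3 : x0 k * l * (x0 k ^ n * l₀) = x0 k ^ (n + 1) * (l * l₀) := by ring
    rw [h3]
    exact h2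
  generalize (x0 k ^ n * l₀) • z = z' at hz0 hn hP'
  obtain ⟨l₁, hl₁, hne⟩ : ∃ l ∈ twist k 1 (-1), l ≠ 0 :=
    ⟨_, y_mem 0, div_ne_zero (fun h => MvPolynomial.X_ne_zero (R := k) (Sum.inr 0 : V 1) (em_inj k 1 (h.trans (em_zero k 1).symm))) emq_ne_zero⟩
  obtain ⟨d, hd, hdz⟩ := hP' l₁ hl₁
  have hxl : x0 k * l₁ ≠ 0 := mul_ne_zero hx hne
  have hzc : z' = ∑ i, ((x0 k * l₁)⁻¹ * d i) • w i := by
    have h2 : z' = (x0 k * l₁)⁻¹ • ((x0 k * l₁) • z') := by
      rw [smul_smul, inv_mul_cancel₀ hxl, one_smul]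
    rw [h2, hdz, Finset.smul_sum]
    exact Finset.sum_congr rfl fun i _ => smul_smul _ _ _
  generalize hc : (fun i => (x0 k * l₁)⁻¹ * d i) = c at hzc
  have hzc' : z' = ∑ i, c i • w i := by
    rw [hzc, ← hc]
  have hc1 : ∀ i, x0 k * c i ∈ twist k 1 (a i + 1) := by
    intro i
    apply of_neg
    intro l hl
    obtain ⟨d', hd', hdz'⟩ := hP' l hl
    rw [hzc', Finset.smul_sum] at hdz'
    have h2 : ∑ i, (x0 k * l * c i) • w i = ∑ i, d' i • w i := by
      rw [← hdz']
      exact Finset.sum_congr rfl fun i _ => (smul_smul _ _ _).symm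
    have h3 := Step_uniq h.ind h2 i
    have h4 : l * (x0 k * c i) = x0 k * l * c i := by ring
    rw [h4, h3]
    exact hd' i
  refine step_ind (fun i => rho k (x0 k * c i)) ?_ w h c (by rw [← hzc']; exact hz0) hc1 fun i => rfl
  intro h0
  apply hn
  rw [hzc']
  exact Step_sp fun i => Step_div (hc1 i) (congrFun h0 i)

end Pool.Agent.SRL
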