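import Pool.Agent.SR.Stmt
import Pool.Agent.SRL.Main

/-!
# SRL Stmt: the theorem of `SRL.Main` over the subalgebra of `K k 1` generated by the `x_i y_j / q`
-/

set_option autoImplicit false

namespace Pool.Agent.SRL

open Pool.Agent.SR

universe u v

variable {k : Type u} [Field k]

private theorem Stmt_aux (S : Subalgebra k (K k 1)) (hS : S = As k 1) (E : Type v) [AddCommGroup E] [Module S E] [Module.Finite S E] [Module.Projective S E] :
    ∃ (r : ℕ) (a : Fin r → ℤ) (φ : E → Fin r → FractionRing (MvPolynomial (Fin (1 + 1) ⊕ Fin (1 + 1)) k)), (∀ x y, φ (x + y) = φ x + φ y) ∧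
      (∀ (b : S) (x : E), φ (b • x) = (b : FractionRing (MvPolynomial (Fin (1 + 1) ⊕ Fin (1 + 1)) k)) • φ x) ∧ Function.Injective φ ∧
      ∀ w, (∀ i, IsTw k 1 (a i) (w i)) ↔ ∃ x, φ x = w := by
  subst hS
  let i1 : Module (A k 1) E := inferInstanceAs (Module (As k 1) E)
  have i2 : Module.Finite (A k 1) E := inferInstanceAs (Module.Finite (As k 1) E)
  have i3 : Module.Projective (A k 1) E := inferInstanceAs (Module.Projective (As k 1) E)
  obtain ⟨r, a, ⟨e⟩⟩ := main (k := k) E
  refine ⟨r, a, fun x => (e x : Fin r → K k 1), fun x y => ?_, fun a x => ?_, ?_, ?_⟩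
  · have h := e.map_add x y
    exact congrArg Subtype.val h
  · have h := e.map_smul a x
    exact congrArg Subtype.val h
  · intro x y h
    exact e.injective (Subtype.ext h)
  · intro w
    constructor
    · intro hw
      exact ⟨e.symm ⟨w, hw⟩, congrArg Subtype.val (e.apply_symm_apply ⟨w, hw⟩)⟩
    · rintro ⟨x, rfl⟩
      exact (e x).2

theorem stmt (E : Type v) [AddCommGroup E] [Module (OU k 1) E] [Module.Finite (OU k 1) E] [Module.Projective (OU k 1) E] :
    ∃ (r : ℕ) (a : Fin r → ℤ) (φ : E → Fin r → FractionRing (MvPolynomial (Fin (1 + 1) ⊕ Fin (1 + 1)) k)), (∀ x y, φ (x + y) = φ x + φ y) ∧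
      (∀ (b : OU k 1) (x : E), φ (b • x) = (b : FractionRing (MvPolynomial (Fin (1 + 1) ⊕ Fin (1 + 1)) k)) • φ x) ∧ Function.Injective φ ∧
      ∀ w, (∀ i, IsTw k 1 (a i) (w i)) ↔ ∃ x, φ x = w :=
  Stmt_aux (OU k 1) OU_eq E

end Pool.Agent.SRL
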